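import Pool.Agent.T2H83.PS.Main

/-!
# The lattice of the submonoids of a finite monoid
-/

set_option autoImplicit false
set_option linter.unusedSectionVars false

namespace Pool.Agent.T2H83.PS

open Pool.Agent.R636.FL
open Pool.Agent.T2H46.PoonenGrp

universe u

section

variable {M : Type u} [Monoid M] [Finite M]

theorem isUnit_of_D {x : M} (h : D x 1) : IsUnit x := by
  obtain ⟨s, t, h⟩ := h
  have key : ∀ z : WithOne M, ∃ z' : M, (z' : WithOne M) = z * ((1 : M) : WithOne M) ∧
      (z' : WithOne M) = ((1 : M) : WithOne M) * z := by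
    intro z
    rcases eq_or_ne z 1 with rfl | hz
    · exact ⟨1, by rw [one_mul], by rw [mul_one]⟩
    · obtain ⟨z, rfl⟩ := WithOne.ne_one_iff_exists.1 hz
      exact ⟨z, by rw [← WithOne.coe_mul, mul_one], by rw [← WithOne.coe_mul, one_mul]⟩
  obtain ⟨s', hs, -⟩ := key s
  obtain ⟨t', -, ht⟩ := key t
  have h1 : s' * x * t' = 1 := by
    apply WithOne.coe_inj.1
    rw [WithOne.coe_mul, WithOne.coe_mul, hs, ht]
    have h2 : ((1 : M) : WithOne M) * x = x := by rw [← WithOne.coe_mul, one_mul]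
    have h3 : (x : WithOne M) * ((1 : M) : WithOne M) = x := by rw [← WithOne.coe_mul, mul_one]
    calc s * ((1 : M) : WithOne M) * x * (((1 : M) : WithOne M) * t)
        = s * ((((1 : M) : WithOne M) * x) * ((1 : M) : WithOne M)) * t := by simp only [mul_assoc]
      _ = _ := by rw [h2, h3, h]
  have h2 : x * t' * s' = 1 := by
    rw [mul_assoc] at h1
    exact mul_eq_one_symm h1
  have h3 : t' * (s' * x) = 1 := mul_eq_one_symm h1
  exact ⟨⟨x, t' * s', by rw [← mul_assoc, h2], by rw [mul_assoc, h3]⟩, rfl⟩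

theorem D_of_isUnit {x : M} (h : IsUnit x) : D x 1 := by
  obtain ⟨u, rfl⟩ := h
  exact ⟨1, ((u⁻¹ : Mˣ) : M), by rw [one_mul, ← WithOne.coe_mul, Units.mul_inv]⟩

theorem D_iff {x : M} : D x 1 ↔ IsUnit x := ⟨isUnit_of_D, D_of_isUnit⟩

variable (M) in
/-- the identity element -/
def mc : Core M where
  e := 1
  he := one_mul 1
  hmax := fun x _ => ⟨1, x, by rw [one_mul, ← WithOne.coe_mul, one_mul]⟩
  hcl := fun x y hx hy => D_of_isUnit ((isUnit_of_D hx).mul (isUnit_of_D hy))

/-- a subgroup of the group of units as a submonoid -/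
def toM (K : Subgroup (mc M).H) : Submonoid M :=
  { (mc M).toSub K with one_mem' := (mc M).e_mem_toSub K }

theorem mem_toM {K : Subgroup (mc M).H} {x : (mc M).H} : x.1 ∈ toM K ↔ x ∈ K := (mc M).mem_toSub'

theorem mem_toM' {K : Subgroup (mc M).H} {x : M} : x ∈ toM K ↔ ∃ y ∈ K, y.1 = x := Iff.rfl

/-- the units in a submonoid -/
def ofM (T : Submonoid M) : Subgroup (mc M).H := (mc M).ofSub T.toSubsemigroup T.one_mem

theorem mem_ofM {T : Submonoid M} {x : (mc M).H} : x ∈ ofM T ↔ x.1 ∈ T := Iff.rfl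

theorem toM_le_iff {K : Subgroup (mc M).H} {T : Submonoid M} : toM K ≤ T ↔ K ≤ ofM T :=
  ⟨fun h x hx => h (mem_toM.2 hx), fun h x hx => by
    obtain ⟨y, hy, rfl⟩ := mem_toM'.1 hx
    exact h hy⟩

theorem toM_mono {A B : Subgroup (mc M).H} : toM A ≤ toM B ↔ A ≤ B :=
  ⟨fun h x hx => mem_toM.1 (h (mem_toM.2 hx)), fun h x hx => by
    obtain ⟨y, hy, rfl⟩ := mem_toM'.1 hx
    exact mem_toM.2 (h hy)⟩

theorem toM_ofM {K : Subgroup (mc M).H} {A : Submonoid M} (hA : A ≤ toM K) : toM (ofM A) = A := by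
  ext x
  constructor
  · intro hx
    obtain ⟨y, hy, rfl⟩ := mem_toM'.1 hx
    exact hy
  · intro hx
    obtain ⟨y, hy, rfl⟩ := mem_toM'.1 (hA hx)
    exact mem_toM.2 hx

theorem supIrred_toM {K : Subgroup (mc M).H} (hK : SupIrred K) : SupIrred (toM K) := by
  refine ⟨?_, ?_⟩
  · intro hmin
    have h1 : toM K ≤ ⊥ := hmin bot_le
    apply hK.1
    have h2 : K = ⊥ := by
      rw [eq_bot_iff]
      intro x hx
      have h3 : x.1 ∈ (⊥ : Submonoid M) := h1 (mem_toM.2 hx)
      rw [Submonoid.mem_bot] at h3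
      rw [Subgroup.mem_bot]
      exact Subtype.ext h3
    rw [h2]; exact isMin_bot
  · intro A B hAB
    have hA : A ≤ toM K := by rw [← hAB]; exact le_sup_left
    have hB : B ≤ toM K := by rw [← hAB]; exact le_sup_right
    have h1 : ofM A ⊔ ofM B = K := by
      apply le_antisymm
      · apply sup_le
        · rw [← toM_mono, toM_ofM hA]; exact hA
        · rw [← toM_mono, toM_ofM hB]; exact hB
      · rw [← toM_mono, ← hAB]
        apply sup_le
        · exact (toM_ofM hA).symm.le.trans (toM_mono.2 le_sup_left)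
        · exact (toM_ofM hB).symm.le.trans (toM_mono.2 le_sup_right)
    rcases hK.2 h1 with h2 | h2
    · left; rw [← toM_ofM hA, h2]
    · right; rw [← toM_ofM hB, h2]

/-- the elements that are not units, and those of a subgroup -/
def NIM (N : Subgroup (mc M).H) : Submonoid M :=
  { (mc M).NI N with one_mem' := Or.inr ((mc M).e_mem_toSub N) }

theorem mem_NIM {N : Subgroup (mc M).H} {x : M} : x ∈ NIM N ↔ ¬ D x 1 ∨ x ∈ toM N := Iff.rfl

theorem toM_le_NIM {N J : Subgroup (mc M).H} : toM J ≤ NIM N ↔ J ≤ N := (mc M).toSub_le_NI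

theorem rec_unit {T : Submonoid M} {J K N : Subgroup (mc M).H}
    (hrec : ∀ U : Subgroup (mc M).H, J ≤ U → K ≤ U → (J ⊔ K) ⊔ (U ⊓ N) = U)
    (hJ : toM J ≤ T) (hK : toM K ≤ T) : (toM J ⊔ toM K) ⊔ (T ⊓ NIM N) = T := by
  apply le_antisymm
  · exact sup_le (sup_le hJ hK) inf_le_left
  · intro x hx
    by_cases hxD : D x 1
    · have h1 := hrec (ofM T) (toM_le_iff.1 hJ) (toM_le_iff.1 hK)
      have h2 : (J ⊔ K) ⊔ (ofM T ⊓ N) ≤ ofM ((toM J ⊔ toM K) ⊔ (T ⊓ NIM N)) := by
        refine sup_le (sup_le ?_ ?_) ?_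
        · exact toM_le_iff.1 (le_sup_left.trans le_sup_left)
        · exact toM_le_iff.1 (le_sup_right.trans le_sup_left)
        · intro z hz
          exact (le_sup_right : T ⊓ NIM N ≤ _) ⟨hz.1, Or.inr (mem_toM.2 hz.2)⟩
      rw [h1] at h2
      exact h2 (show (⟨x, hxD, one_mul x, mul_one x⟩ : (mc M).H) ∈ ofM T from hx)
    · exact (le_sup_right : T ⊓ NIM N ≤ _) ⟨hx, Or.inl hxD⟩

/-- the submonoids of a submonoid -/
def monIso (N : Submonoid M) : Submonoid N ≃o Set.Iic N where
  toFun A := ⟨A.map N.subtype, by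
    rintro x hx
    obtain ⟨y, -, rfl⟩ := Submonoid.mem_map.1 hx
    exact y.2⟩
  invFun B := B.1.comap N.subtype
  left_inv A := Submonoid.comap_map_eq_of_injective Subtype.val_injective A
  right_inv B := by
    apply Subtype.ext
    ext x
    constructor
    · intro hx
      obtain ⟨y, hy, rfl⟩ := Submonoid.mem_map.1 hx
      exact hy
    · intro hx
      exact Submonoid.mem_map.2 ⟨⟨x, B.2 hx⟩, hx, rfl⟩
  map_rel_iff' := by
    intro A B
    constructor
    · intro h x hx
      obtain ⟨y, hy, h1⟩ := Submonoid.mem_map.1 (h (Submonoid.mem_map.2 ⟨x, hx, rfl⟩))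
      have : y = x := Subtype.ext h1
      rw [← this]; exact hy
    · rintro h x hx
      obtain ⟨y, hy, rfl⟩ := Submonoid.mem_map.1 hx
      exact Submonoid.mem_map.2 ⟨y, h hy, rfl⟩

/-- the submonoids of a monoid without nontrivial units -/
def trivIso (h : ∀ x y : M, x * y = 1 → x = 1 ∨ y = 1) :
    Subsemigroup (rem (1 : M) h) ≃o Submonoid M where
  toFun U :=
    { carrier := {x | x = 1 ∨ ∃ y ∈ U, y.1 = x}
      one_mem' := Or.inl rfl
      mul_mem' := by
        rintro x y (rfl | ⟨x', hx, rfl⟩) (rfl | ⟨y', hy, rfl⟩)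
        · left; rw [one_mul]
        · right; exact ⟨y', hy, by rw [one_mul]⟩
        · right; exact ⟨x', hx, by rw [mul_one]⟩
        · right; exact ⟨x' * y', U.mul_mem hx hy, rfl⟩ }
  invFun T := T.toSubsemigroup.comap (MulMemClass.subtype (rem (1 : M) h))
  left_inv U := by
    ext x
    constructor
    · rintro (h1 | ⟨y, hy, h1⟩)
      · exact absurd h1 x.2
      · have : y = x := Subtype.ext h1
        rw [← this]; exact hy
    · intro hx
      exact Or.inr ⟨x, hx, rfl⟩
  right_inv T := by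
    ext x
    constructor
    · rintro (h1 | ⟨y, hy, rfl⟩)
      · rw [h1]; exact T.one_mem
      · exact hy
    · intro hx
      by_cases h1 : x = 1
      · exact Or.inl h1
      · exact Or.inr ⟨⟨x, h1⟩, hx, rfl⟩
  map_rel_iff' := by
    intro A B
    constructor
    · intro h1 x hx
      rcases h1 (show x.1 ∈ _ from Or.inr ⟨x, hx, rfl⟩) with h2 | ⟨y, hy, h2⟩
      · exact absurd h2 x.2
      · have : y = x := Subtype.ext h2
        rw [← this]; exact hy
    · rintro h1 x (h2 | ⟨y, hy, h2⟩)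
      · exact Or.inl h2
      · exact Or.inr ⟨y, h1 hy, h2⟩

end

theorem GG.subM {M : Type u} [Monoid M] (h : GG M) (N : Submonoid M) : GG N := by
  intro G _ φ hφ
  exact h G ((MulMemClass.subtype N).comp φ) (Subtype.val_injective.comp hφ)

theorem good_mon (n : ℕ) : ∀ (M : Type u) [Monoid M] [Finite M], Nat.card M ≤ n →
    GG M → Good (Submonoid M) := by
  induction n with
  | zero =>
    intro M _ _ hn _
    have := Nat.card_pos (α := M)
    omega
  | succ n ih =>
    intro M _ _ hn hG
    classical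
    by_cases hH : Nontrivial (mc M).H
    · have hGH : TopGenerated (mc M).H :=
        hG (mc M).H ⟨fun x => x.1, fun x y => rfl⟩ (fun x y h => Subtype.ext h)
      obtain ⟨N, J, K, hJ, hK, hJN, hKN, hrec, hV⟩ := group_data (mc M).H hGH
      have hJN' : ¬ toM J ≤ NIM N := fun h => hJN (toM_le_NIM.1 h)
      have hKN' : ¬ toM K ≤ NIM N := fun h => hKN (toM_le_NIM.1 h)
      rcases hV with ⟨V, hV1, hV2, hV3⟩ | rfl
      · rcases two_crit hJN' hKN' (fun U h1 h2 => rec_unit hrec h1 h2)
          ⟨toM V, fun h => hV1 (toM_le_NIM.1 h), fun h => hV2 (toM_mono.1 h),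
            fun h => hV3 (toM_mono.1 h)⟩ with h | h
        · exact Or.inl ⟨_, supIrred_toM hJ, h⟩
        · exact Or.inl ⟨_, supIrred_toM hK, h⟩
      · have hrec' : ∀ U, toM J ≤ U → toM J ⊔ (U ⊓ NIM N) = U := by
          intro U h1
          have h2 := rec_unit hrec h1 h1
          rwa [sup_idem] at h2
        rcases one_crit hJN' hrec' with h1 | h1
        · refine good_of_split hJN' hrec' h1 ((ih (NIM N) ?_ (hG.subM _)).congr (monIso (NIM N)))
          -- the submonoid is proper
          obtain ⟨x, -, hx⟩ := SetLike.not_le_iff_exists.1 hJN'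
          have := Fintype.ofFinite M
          have h2 : Nat.card (NIM N) < Nat.card M := by
            rw [Nat.card_eq_fintype_card, Nat.card_eq_fintype_card]
            exact Fintype.card_subtype_lt (x := x) hx
          omega
        · exact Or.inl ⟨_, supIrred_toM hJ, h1⟩
    · rw [not_nontrivial_iff_subsingleton] at hH
      have h1 : ∀ x y : M, x * y = 1 → x = 1 ∨ y = 1 := by
        intro x y hxy
        have hx : D x 1 := ⟨1, y, by rw [one_mul, ← WithOne.coe_mul, hxy]⟩
        let z : (mc M).H := ⟨x, hx, one_mul x, mul_one x⟩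
        have : z = 1 := Subsingleton.elim _ _
        exact Or.inl (congrArg (fun y : (mc M).H => y.1) this)
      exact (good_semigroup (rem (1 : M) h1) (hG.sub _)).congr (trivIso h1)

/-- the lattice of the submonoids of a finite monoid -/
theorem good_monoid (M : Type u) [Monoid M] [Finite M] (hG : GG M) : Good (Submonoid M) :=
  good_mon _ M le_rfl hG

end Pool.Agent.T2H83.PS
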