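import Pool.Agent.T2H83.PS.Stab
import Pool.Agent.R636.FLat

/-!
# The counting injection around a maximal idempotent
-/

set_option autoImplicit false
set_option linter.unusedSectionVars false

namespace Pool.Agent.T2H83.PS

open Pool.Agent.R636.FL

/-- two elements such that fewer elements lie above both than above none of them -/
theorem two_inj {L : Type*} [Lattice L] [Finite L] {J K : L} (φ : L → L)
    (h1 : ∀ U, J ≤ U → K ≤ U → ¬ J ≤ φ U ∧ ¬ K ≤ φ U)
    (hinj : ∀ U W, J ≤ U → K ≤ U → J ≤ W → K ≤ W → φ U = φ W → U = W)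
    (hV : ∃ V, ¬ J ≤ V ∧ ¬ K ≤ V ∧ ∀ U, J ≤ U → K ≤ U → φ U ≠ V) :
    2 * Nat.card {U : L // J ≤ U} < Nat.card L ∨ 2 * Nat.card {U : L // K ≤ U} < Nat.card L := by
  classical
  have := Fintype.ofFinite L
  obtain ⟨V, hV1, hV2, hV3⟩ := hV
  have h1 : (Finset.univ.filter fun U : L => J ≤ U ∧ K ≤ U).card <
      (Finset.univ.filter fun U : L => ¬ J ≤ U ∧ ¬ K ≤ U).card := by
    have h0 : (Finset.univ.filter fun U : L => J ≤ U ∧ K ≤ U).card ≤
        ((Finset.univ.filter fun U : L => ¬ J ≤ U ∧ ¬ K ≤ U).erase V).card := by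
      refine Finset.card_le_card_of_injOn φ ?_ ?_
      · intro U hU
        simp only [Finset.coe_filter, Finset.mem_univ, true_and, Set.mem_ofPred_eq] at hU
        rw [Finset.mem_coe, Finset.mem_erase]
        refine ⟨hV3 U hU.1 hU.2, ?_⟩
        simp only [Finset.mem_filter, Finset.mem_univ, true_and]
        exact h1 U hU.1 hU.2
      · intro U hU W hW h3
        simp only [Finset.coe_filter, Finset.mem_univ, true_and, Set.mem_ofPred_eq] at hU hW
        exact hinj U W hU.1 hU.2 hW.1 hW.2 h3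
    refine lt_of_le_of_lt h0 (Finset.card_erase_lt_of_mem ?_)
    simp only [Finset.mem_filter, Finset.mem_univ, true_and]
    exact ⟨hV1, hV2⟩
  have e1 : (Finset.univ.filter fun U : L => J ≤ U).card =
      (Finset.univ.filter fun U : L => J ≤ U ∧ K ≤ U).card +
      (Finset.univ.filter fun U : L => J ≤ U ∧ ¬ K ≤ U).card := by
    rw [← Finset.card_filter_add_card_filter_not (s := Finset.univ.filter fun U : L => J ≤ U)
      (fun U : L => K ≤ U), Finset.filter_filter, Finset.filter_filter]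
  have e2 : (Finset.univ.filter fun U : L => K ≤ U).card =
      (Finset.univ.filter fun U : L => J ≤ U ∧ K ≤ U).card +
      (Finset.univ.filter fun U : L => ¬ J ≤ U ∧ K ≤ U).card := by
    rw [← Finset.card_filter_add_card_filter_not (s := Finset.univ.filter fun U : L => K ≤ U)
      (fun U : L => J ≤ U), Finset.filter_filter, Finset.filter_filter]
    congr 2 <;> ext U <;> simp only [Finset.mem_filter] <;> tauto
  have e3 : (Finset.univ.filter fun U : L => ¬ J ≤ U).card =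
      (Finset.univ.filter fun U : L => ¬ J ≤ U ∧ K ≤ U).card +
      (Finset.univ.filter fun U : L => ¬ J ≤ U ∧ ¬ K ≤ U).card := by
    rw [← Finset.card_filter_add_card_filter_not (s := Finset.univ.filter fun U : L => ¬ J ≤ U)
      (fun U : L => K ≤ U), Finset.filter_filter, Finset.filter_filter]
  have e4 := Finset.card_filter_add_card_filter_not (s := (Finset.univ : Finset L))
    (fun U : L => J ≤ U)
  rw [Nat.card_eq_fintype_card, Nat.card_eq_fintype_card, Fintype.card_subtype,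
    Nat.card_eq_fintype_card, Fintype.card_subtype]
  rw [Finset.card_univ] at e4
  omega

/-- an idempotent, maximal in the order of divisibility, whose divisors form a subsemigroup -/
structure Core (S : Type*) [Semigroup S] where
  e : S
  he : e * e = e
  hmax : ∀ x : S, D x e → D e x
  hcl : ∀ x y : S, D x e → D y e → D (x * y) e

namespace Core

variable {S : Type*} [Semigroup S] [Finite S] (c : Core S)

theorem fac_left {x y : S} (hxy : D (x * y) c.e) : ∃ z : WithOne S,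
    (x : WithOne S) = (x * y) * z := by
  obtain ⟨s, t, h⟩ : D (x * y) x := hxy.trans (c.hmax x hxy.mul_left)
  have h1 : s * (x : WithOne S) * (y * t) = x := by
    calc s * (x : WithOne S) * (y * t) = s * (x * y) * t := by simp only [mul_assoc]
      _ = x := by rw [← WithOne.coe_mul, h]
  obtain ⟨⟨n, hn⟩, -⟩ := stab h1
  refine ⟨t * (y * t) ^ n, ?_⟩
  conv_lhs => rw [← hn, pow_succ']
  simp only [mul_assoc]

theorem fac_right {x y : S} (hxy : D (x * y) c.e) : ∃ z : WithOne S,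
    (y : WithOne S) = z * (x * y) := by
  obtain ⟨s, t, h⟩ : D (x * y) y := hxy.trans (c.hmax y hxy.mul_right)
  have h1 : (s * x) * (y : WithOne S) * t = y := by
    calc (s * x) * (y : WithOne S) * t = s * (x * y) * t := by simp only [mul_assoc]
      _ = y := by rw [← WithOne.coe_mul, h]
  obtain ⟨-, n, hn⟩ := stab h1
  refine ⟨(s * x) ^ n * s, ?_⟩
  conv_lhs => rw [← hn, pow_succ]
  simp only [mul_assoc]

/-- the right class of the idempotent -/
def R (x : S) : Prop := D x c.e ∧ c.e * x = x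

/-- the left class of the idempotent -/
def Lc (x : S) : Prop := D x c.e ∧ x * c.e = x

theorem R_of_mul {x y : S} (h : c.R (x * y)) : c.R x := by
  obtain ⟨z, hz⟩ := c.fac_left h.1
  refine ⟨h.1.mul_left, ?_⟩
  apply WithOne.coe_inj.1
  rw [WithOne.coe_mul]
  conv_lhs => rw [hz, ← WithOne.coe_mul, ← mul_assoc, ← WithOne.coe_mul, h.2, WithOne.coe_mul]
  exact hz.symm

theorem L_of_mul {x y : S} (h : c.Lc (x * y)) : c.Lc y := by
  obtain ⟨z, hz⟩ := c.fac_right h.1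
  refine ⟨h.1.mul_right, ?_⟩
  apply WithOne.coe_inj.1
  rw [WithOne.coe_mul]
  conv_lhs => rw [hz, ← WithOne.coe_mul, mul_assoc, ← WithOne.coe_mul, h.2, WithOne.coe_mul]
  exact hz.symm

theorem De : D c.e c.e := D.refl c.e

/-- the non-members of the right class form a subsemigroup -/
def NR : Subsemigroup S where
  carrier := {x | ¬ c.R x}
  mul_mem' := fun {_ _} hx _ h => hx (c.R_of_mul h)

def NL : Subsemigroup S where
  carrier := {x | ¬ c.Lc x}
  mul_mem' := fun {_ _} _ hy h => hy (c.L_of_mul h)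

theorem mem_NR {x : S} : x ∈ c.NR ↔ ¬ c.R x := Iff.rfl

theorem mem_NL {x : S} : x ∈ c.NL ↔ ¬ c.Lc x := Iff.rfl

/-- the maximal subgroup at the idempotent -/
def H : Type _ := {x : S // D x c.e ∧ c.e * x = x ∧ x * c.e = x}

instance : Finite c.H := inferInstanceAs (Finite {x : S // D x c.e ∧ c.e * x = x ∧ x * c.e = x})

theorem exists_inv {x : S} (hx : D x c.e) (h1 : c.e * x = x) (h2 : x * c.e = x) :
    ∃ y : S, (D y c.e ∧ c.e * y = y ∧ y * c.e = y) ∧ y * x = c.e := by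
  have hex : D (x * c.e) c.e := by rw [h2]; exact hx
  obtain ⟨z, hz⟩ := c.fac_right hex
  -- `e = z * x`
  have h3 : (c.e : WithOne S) = z * x := by
    rw [← WithOne.coe_mul, h2] at hz
    exact hz
  obtain ⟨y1, hy1⟩ := mul_coe' c.e z
  refine ⟨c.e * y1, ?_⟩
  have h4 : y1 * x = c.e := by
    apply WithOne.coe_inj.1
    rw [WithOne.coe_mul, hy1, mul_assoc, ← WithOne.coe_mul, h1, h3]
  have h5 : (c.e * y1) * x = c.e := by rw [mul_assoc, h4, c.he]
  have h6 : y1 * c.e = y1 := by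
    apply WithOne.coe_inj.1
    rw [WithOne.coe_mul, hy1, mul_assoc, ← WithOne.coe_mul, c.he]
  refine ⟨⟨?_, ?_, ?_⟩, h5⟩
  · exact D.mul_left (y := x) (by rw [h5]; exact c.De)
  · rw [← mul_assoc, c.he]
  · rw [mul_assoc, h6]

noncomputable instance : Group c.H :=
  letI : Mul c.H := ⟨fun x y => ⟨x.1 * y.1, c.hcl _ _ x.2.1 y.2.1,
    by rw [← mul_assoc, x.2.2.1], by rw [mul_assoc, y.2.2.2]⟩⟩
  letI : One c.H := ⟨⟨c.e, c.De, c.he, c.he⟩⟩
  letI : Inv c.H := ⟨fun x => ⟨(c.exists_inv x.2.1 x.2.2.1 x.2.2.2).choose,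
    (c.exists_inv x.2.1 x.2.2.1 x.2.2.2).choose_spec.1⟩⟩
  Group.ofLeftAxioms (fun x y z => Subtype.ext (mul_assoc x.1 y.1 z.1))
    (fun x => Subtype.ext x.2.2.1)
    (fun x => Subtype.ext (c.exists_inv x.2.1 x.2.2.1 x.2.2.2).choose_spec.2)

theorem coe_mul (x y : c.H) : (x * y).1 = x.1 * y.1 := rfl

theorem coe_one : (1 : c.H).1 = c.e := rfl

theorem coe_eq_iff {x y : c.H} : x.1 = y.1 ↔ x = y := ⟨fun h => Subtype.ext h, fun h => by rw [h]⟩

/-- the subgroup of the elements of a subsemigroup that contains the idempotent -/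
def ofSub (T : Subsemigroup S) (hT : c.e ∈ T) : Subgroup c.H where
  carrier := {x | x.1 ∈ T}
  mul_mem' := fun {x y} hx hy => T.mul_mem hx hy
  one_mem' := hT
  inv_mem' := by
    intro x hx
    have h1 : ∀ k : ℕ, (x ^ k).1 ∈ T := by
      intro k
      induction k with
      | zero => rw [pow_zero]; exact hT
      | succ k ih => rw [pow_succ]; exact T.mul_mem ih hx
    have h2 : x⁻¹ = x ^ (orderOf x - 1) := by
      apply inv_eq_of_mul_eq_one_right
      rw [← pow_succ', Nat.sub_add_cancel (orderOf_pos x), pow_orderOf_eq_one]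
    rw [h2]
    exact h1 _

theorem mem_ofSub {T : Subsemigroup S} {hT : c.e ∈ T} {x : c.H} : x ∈ c.ofSub T hT ↔ x.1 ∈ T :=
  Iff.rfl

/-- a subgroup as a subsemigroup -/
def toSub (K : Subgroup c.H) : Subsemigroup S where
  carrier := {x | ∃ y ∈ K, y.1 = x}
  mul_mem' := by
    rintro _ _ ⟨x, hx, rfl⟩ ⟨y, hy, rfl⟩
    exact ⟨x * y, K.mul_mem hx hy, rfl⟩

theorem mem_toSub {K : Subgroup c.H} {x : S} : x ∈ c.toSub K ↔ ∃ y ∈ K, y.1 = x := Iff.rfl

theorem mem_toSub' {K : Subgroup c.H} {x : c.H} : x.1 ∈ c.toSub K ↔ x ∈ K :=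
  ⟨fun ⟨y, hy, h⟩ => by rw [← c.coe_eq_iff.1 h]; exact hy, fun h => ⟨x, h, rfl⟩⟩

theorem e_mem_toSub (K : Subgroup c.H) : c.e ∈ c.toSub K := ⟨1, K.one_mem, rfl⟩

theorem toSub_mono {A B : Subgroup c.H} : c.toSub A ≤ c.toSub B ↔ A ≤ B :=
  ⟨fun h x hx => c.mem_toSub'.1 (h (c.mem_toSub'.2 hx)), fun h x hx => by
    obtain ⟨y, hy, rfl⟩ := hx
    exact ⟨y, h hy, rfl⟩⟩

theorem toSub_le_iff {A : Subgroup c.H} {T : Subsemigroup S} (hT : c.e ∈ T) :
    c.toSub A ≤ T ↔ A ≤ c.ofSub T hT :=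
  ⟨fun h x hx => h (c.mem_toSub'.2 hx), fun h x hx => by
    obtain ⟨y, hy, rfl⟩ := hx
    exact h hy⟩

/-- a nonempty part of the maximal subgroup closed under multiplication contains the idempotent -/
theorem e_mem_of_mem {T : Subsemigroup S} {x : c.H} (hx : x.1 ∈ T) : c.e ∈ T := by
  have h1 : ∀ k : ℕ, (x ^ (k + 1)).1 ∈ T := by
    intro k
    induction k with
    | zero => rw [zero_add, pow_one]; exact hx
    | succ k ih => rw [pow_succ]; exact T.mul_mem ih hx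
  have h2 := h1 (orderOf x - 1)
  rw [Nat.sub_add_cancel (orderOf_pos x), pow_orderOf_eq_one] at h2
  exact h2

theorem supIrred_toSub {K : Subgroup c.H} (hK : SupIrred K) : SupIrred (c.toSub K) := by
  refine ⟨?_, ?_⟩
  · intro hmin
    have h1 : c.toSub K ≤ ⊥ := hmin bot_le
    exact Subsemigroup.notMem_bot (h1 (c.e_mem_toSub K))
  · intro A B hAB
    have hA : A ≤ c.toSub K := by rw [← hAB]; exact le_sup_left
    have hB : B ≤ c.toSub K := by rw [← hAB]; exact le_sup_right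
    have key : ∀ A : Subsemigroup S, A ≤ c.toSub K → A ≠ ⊥ → c.e ∈ A := by
      intro A hA hne
      obtain ⟨x, hx⟩ : ∃ x, x ∈ A := by
        by_contra hno
        push Not at hno
        exact hne (eq_bot_iff.2 fun x hx => absurd hx (hno x))
      obtain ⟨y, hy, rfl⟩ := hA hx
      exact c.e_mem_of_mem hx
    by_cases hA0 : A = ⊥
    · right; rw [← hAB, hA0, bot_sup_eq]
    by_cases hB0 : B = ⊥
    · left; rw [← hAB, hB0, sup_bot_eq]
    have heA := key A hA hA0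
    have heB := key B hB hB0
    have hsub : ∀ (A : Subsemigroup S) (hA : A ≤ c.toSub K) (heA : c.e ∈ A),
        c.toSub (c.ofSub A heA) = A := by
      intro A hA heA
      ext x
      constructor
      · rintro ⟨y, hy, rfl⟩
        exact hy
      · intro hx
        obtain ⟨y, hy, rfl⟩ := hA hx
        exact ⟨y, hx, rfl⟩
    have h1 : c.ofSub A heA ⊔ c.ofSub B heB = K := by
      apply le_antisymm
      · apply sup_le
        · rw [← c.toSub_mono, hsub A hA heA]; exact hA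
        · rw [← c.toSub_mono, hsub B hB heB]; exact hB
      · rw [← c.toSub_mono, ← hAB]
        apply sup_le
        · exact (hsub A hA heA).symm.le.trans (c.toSub_mono.2 le_sup_left)
        · exact (hsub B hB heB).symm.le.trans (c.toSub_mono.2 le_sup_right)
    rcases hK.2 h1 with h2 | h2
    · left; rw [← hsub A hA heA, h2]
    · right; rw [← hsub B hB heB, h2]

/-- the elements of the right class in a subsemigroup come from the elements outside the class -/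
theorem rec_R {T : Subsemigroup S} (heT : c.e ∈ T) {y : S} (hy : y ∈ T) (hyD : D y c.e)
    (hyR : c.e * y ≠ y) {x : S} :
    (x ∈ T ∧ c.R x) ↔ ∃ w, (w ∈ T ∧ ¬ c.R w) ∧ D w c.e ∧ x = c.e * w := by
  constructor
  · rintro ⟨hx, hxD, hxR⟩
    -- the element `e * y * e` of the maximal subgroup and its inverse
    have h1 : D (c.e * y * c.e) c.e := c.hcl _ _ (c.hcl _ _ c.De hyD) c.De
    let a : c.H := ⟨c.e * y * c.e, h1, by rw [← mul_assoc, ← mul_assoc, c.he],
      by rw [mul_assoc, c.he]⟩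
    have ha : a ∈ c.ofSub T heT := T.mul_mem (T.mul_mem heT hy) heT
    have hv : (a⁻¹).1 ∈ T := (c.ofSub T heT).inv_mem ha
    have h2 : c.e * y * (a⁻¹).1 = c.e := by
      have h3 : (a * a⁻¹).1 = c.e := by rw [mul_inv_cancel]; rfl
      rw [c.coe_mul] at h3
      have h4 : a.1 * (a⁻¹).1 = c.e * y * (c.e * (a⁻¹).1) := mul_assoc _ _ _
      rw [h4, (a⁻¹).2.2.1] at h3
      exact h3
    refine ⟨y * ((a⁻¹).1 * x), ⟨T.mul_mem hy (T.mul_mem hv hx), fun h => hyR (c.R_of_mul h).2⟩,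
      ?_, ?_⟩
    · exact c.hcl _ _ hyD (c.hcl _ _ (a⁻¹).2.1 hxD)
    · rw [← mul_assoc, ← mul_assoc, h2, hxR]
  · rintro ⟨w, ⟨hwT, -⟩, hwD, rfl⟩
    exact ⟨T.mul_mem heT hwT, c.hcl _ _ c.De hwD, by rw [← mul_assoc, c.he]⟩

theorem rec_L {T : Subsemigroup S} (heT : c.e ∈ T) {y : S} (hy : y ∈ T) (hyD : D y c.e)
    (hyR : y * c.e ≠ y) {x : S} :
    (x ∈ T ∧ c.Lc x) ↔ ∃ w, (w ∈ T ∧ ¬ c.Lc w) ∧ D w c.e ∧ x = w * c.e := by
  constructor
  · rintro ⟨hx, hxD, hxR⟩
    have h1 : D (c.e * y * c.e) c.e := c.hcl _ _ (c.hcl _ _ c.De hyD) c.De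
    let a : c.H := ⟨c.e * y * c.e, h1, by rw [← mul_assoc, ← mul_assoc, c.he],
      by rw [mul_assoc, c.he]⟩
    have ha : a ∈ c.ofSub T heT := T.mul_mem (T.mul_mem heT hy) heT
    have hv : (a⁻¹).1 ∈ T := (c.ofSub T heT).inv_mem ha
    have h2 : (a⁻¹).1 * y * c.e = c.e := by
      have h3 : (a⁻¹ * a).1 = c.e := by rw [inv_mul_cancel]; rfl
      rw [c.coe_mul] at h3
      have h4 : (a⁻¹).1 * a.1 = ((a⁻¹).1 * c.e) * y * c.e := by
        change (a⁻¹).1 * (c.e * y * c.e) = _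
        simp only [mul_assoc]
      rw [h4, (a⁻¹).2.2.2] at h3
      exact h3
    refine ⟨(x * (a⁻¹).1) * y, ⟨T.mul_mem (T.mul_mem hx hv) hy, fun h => hyR (c.L_of_mul h).2⟩,
      ?_, ?_⟩
    · exact c.hcl _ _ (c.hcl _ _ hxD (a⁻¹).2.1) hyD
    · have h5 : x * (a⁻¹).1 * y * c.e = x * ((a⁻¹).1 * y * c.e) := by simp only [mul_assoc]
      rw [h5, h2, hxR]
  · rintro ⟨w, ⟨hwT, -⟩, hwD, rfl⟩
    exact ⟨T.mul_mem hwT heT, c.hcl _ _ hwD c.De, by rw [mul_assoc, c.he]⟩

open Classical in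
/-- the injection -/
noncomputable def phi (NI T : Subsemigroup S) : Subsemigroup S :=
  if ∃ y ∈ T, D y c.e ∧ c.e * y ≠ y then T ⊓ c.NR
  else if ∃ y ∈ T, D y c.e ∧ y * c.e ≠ y then T ⊓ c.NL
  else T ⊓ NI

theorem phi_R {NI T : Subsemigroup S} (h : ∃ y ∈ T, D y c.e ∧ c.e * y ≠ y) :
    c.phi NI T = T ⊓ c.NR := if_pos h

theorem phi_L {NI T : Subsemigroup S} (h : ¬ ∃ y ∈ T, D y c.e ∧ c.e * y ≠ y)
    (h' : ∃ y ∈ T, D y c.e ∧ y * c.e ≠ y) : c.phi NI T = T ⊓ c.NL := by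
  unfold phi; rw [if_neg h, if_pos h']

theorem phi_N {NI T : Subsemigroup S} (h : ¬ ∃ y ∈ T, D y c.e ∧ c.e * y ≠ y)
    (h' : ¬ ∃ y ∈ T, D y c.e ∧ y * c.e ≠ y) : c.phi NI T = T ⊓ NI := by
  unfold phi; rw [if_neg h, if_neg h']

theorem phi_le {NI T : Subsemigroup S} : c.phi NI T ≤ T := by
  by_cases h : ∃ y ∈ T, D y c.e ∧ c.e * y ≠ y
  · rw [c.phi_R h]; exact inf_le_left
  · by_cases h' : ∃ y ∈ T, D y c.e ∧ y * c.e ≠ y
    · rw [c.phi_L h h']; exact inf_le_left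
    · rw [c.phi_N h h']; exact inf_le_left

theorem phi_class_R {NI U W : Subsemigroup S} (h : c.phi NI U = c.phi NI W)
    (hU : ∃ y ∈ U, D y c.e ∧ c.e * y ≠ y) : ∃ y ∈ W, D y c.e ∧ c.e * y ≠ y := by
  obtain ⟨y, hyU, hyD, hyR⟩ := hU
  refine ⟨y, c.phi_le (NI := NI) ?_, hyD, hyR⟩
  rw [← h, c.phi_R ⟨y, hyU, hyD, hyR⟩]
  exact ⟨hyU, fun h2 => hyR h2.2⟩

theorem phi_class_L {NI U W : Subsemigroup S} (h : c.phi NI U = c.phi NI W)
    (hU' : ¬ ∃ y ∈ U, D y c.e ∧ c.e * y ≠ y)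
    (hU : ∃ y ∈ U, D y c.e ∧ y * c.e ≠ y) : ∃ y ∈ W, D y c.e ∧ y * c.e ≠ y := by
  obtain ⟨y, hyU, hyD, hyR⟩ := hU
  refine ⟨y, c.phi_le (NI := NI) ?_, hyD, hyR⟩
  rw [← h, c.phi_L hU' ⟨y, hyU, hyD, hyR⟩]
  exact ⟨hyU, fun h2 => hyR h2.2⟩

theorem phi_crit (NI K1 K2 : Subsemigroup S) (hI : ∀ x, ¬ D x c.e → x ∈ NI)
    (h1N : ¬ K1 ≤ NI) (h2N : ¬ K2 ≤ NI) (he1 : c.e ∈ K1) (he2 : c.e ∈ K2)
    (hrec : ∀ T1 T2 : Subsemigroup S, K1 ≤ T1 → K2 ≤ T1 → K1 ≤ T2 → K2 ≤ T2 →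
      (∀ x ∈ NI, x ∈ T1 ↔ x ∈ T2) → ∀ x, D x c.e → c.e * x = x → x * c.e = x → x ∈ T1 → x ∈ T2)
    (hV : ∃ V, ¬ K1 ≤ V ∧ ¬ K2 ≤ V ∧ ∀ U, K1 ≤ U → K2 ≤ U → c.phi NI U ≠ V) :
    2 * Nat.card {U : Subsemigroup S // K1 ≤ U} < Nat.card (Subsemigroup S) ∨
      2 * Nat.card {U : Subsemigroup S // K2 ≤ U} < Nat.card (Subsemigroup S) := by
  classical
  refine two_inj (c.phi NI) ?_ ?_ hV
  · intro U hU1 hU2
    by_cases h1 : ∃ y ∈ U, D y c.e ∧ c.e * y ≠ y
    · rw [c.phi_R h1]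
      exact ⟨fun h => (h he1).2 ⟨c.De, c.he⟩, fun h => (h he2).2 ⟨c.De, c.he⟩⟩
    · by_cases h2 : ∃ y ∈ U, D y c.e ∧ y * c.e ≠ y
      · rw [c.phi_L h1 h2]
        exact ⟨fun h => (h he1).2 ⟨c.De, c.he⟩, fun h => (h he2).2 ⟨c.De, c.he⟩⟩
      · rw [c.phi_N h1 h2]
        exact ⟨fun h => h1N (h.trans inf_le_right), fun h => h2N (h.trans inf_le_right)⟩
  · intro U W hU1 hU2 hW1 hW2 h
    have heU : c.e ∈ U := hU1 he1
    have heW : c.e ∈ W := hW1 he1
    by_cases hUR : ∃ y ∈ U, D y c.e ∧ c.e * y ≠ y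
    · have hWR := c.phi_class_R h hUR
      rw [c.phi_R hUR, c.phi_R hWR] at h
      obtain ⟨y, hyU, hyD, hyR⟩ := hUR
      obtain ⟨z, hzW, hzD, hzR⟩ := hWR
      have h1 : ∀ w, (w ∈ U ∧ ¬ c.R w) ↔ (w ∈ W ∧ ¬ c.R w) := fun w => by
        have := SetLike.ext_iff.1 h w
        exact this
      have h2 : ∀ x, (x ∈ U ∧ c.R x) ↔ (x ∈ W ∧ c.R x) := by
        intro x
        rw [c.rec_R heU hyU hyD hyR, c.rec_R heW hzW hzD hzR]
        simp only [h1]
      ext x
      have := h1 x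
      have := h2 x
      tauto
    · have hWR : ¬ ∃ y ∈ W, D y c.e ∧ c.e * y ≠ y := fun h1 => hUR (c.phi_class_R h.symm h1)
      by_cases hUL : ∃ y ∈ U, D y c.e ∧ y * c.e ≠ y
      · have hWL := c.phi_class_L h hUR hUL
        rw [c.phi_L hUR hUL, c.phi_L hWR hWL] at h
        obtain ⟨y, hyU, hyD, hyR⟩ := hUL
        obtain ⟨z, hzW, hzD, hzR⟩ := hWL
        have h1 : ∀ w, (w ∈ U ∧ ¬ c.Lc w) ↔ (w ∈ W ∧ ¬ c.Lc w) := fun w => by
          have := SetLike.ext_iff.1 h w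
          exact this
        have h2 : ∀ x, (x ∈ U ∧ c.Lc x) ↔ (x ∈ W ∧ c.Lc x) := by
          intro x
          rw [c.rec_L heU hyU hyD hyR, c.rec_L heW hzW hzD hzR]
          simp only [h1]
        ext x
        have := h1 x
        have := h2 x
        tauto
      · have hWL : ¬ ∃ y ∈ W, D y c.e ∧ y * c.e ≠ y :=
          fun h1 => hUL (c.phi_class_L h.symm hWR h1)
        rw [c.phi_N hUR hUL, c.phi_N hWR hWL] at h
        push Not at hUR hWR hUL hWL
        have h1 : ∀ x ∈ NI, x ∈ U ↔ x ∈ W := fun x hx => by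
          have := SetLike.ext_iff.1 h x
          constructor
          · intro h2; exact (this.1 ⟨h2, hx⟩).1
          · intro h2; exact (this.2 ⟨h2, hx⟩).1
        have h2 : ∀ x ∈ NI, x ∈ W ↔ x ∈ U := fun x hx => (h1 x hx).symm
        ext x
        by_cases hxD : D x c.e
        · constructor
          · intro hx
            exact hrec U W hU1 hU2 hW1 hW2 h1 x hxD (hUR x hx hxD) (hUL x hx hxD) hx
          · intro hx
            exact hrec W U hW1 hW2 hU1 hU2 h2 x hxD (hWR x hx hxD) (hWL x hx hxD) hx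
        · exact h1 x (hI x hxD)

end Core

end Pool.Agent.T2H83.PS
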