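import Pool.Agent.T2H83.PS.Core
import Pool.Agent.T2H46.PoonenGrp

/-!
# The maximal subgroup is not trivial
-/

set_option autoImplicit false
set_option linter.unusedSectionVars false

namespace Pool.Agent.T2H83.PS

open Pool.Agent.R636.FL
open Pool.Agent.T2H46.PoonenGrp

universe u

/-- a normal subgroup and two join-irreducible subgroups -/
theorem group_data (G : Type u) [Group G] [Finite G] [Nontrivial G] (hG : TopGenerated G) :
    ∃ N J K : Subgroup G, SupIrred J ∧ SupIrred K ∧ ¬ J ≤ N ∧ ¬ K ≤ N ∧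
      (∀ U : Subgroup G, J ≤ U → K ≤ U → (J ⊔ K) ⊔ (U ⊓ N) = U) ∧
      ((∃ V : Subgroup G, ¬ V ≤ N ∧ ¬ J ≤ V ∧ ¬ K ≤ V) ∨ J = K) := by
  classical
  -- a maximal normal subgroup
  obtain ⟨N, hN⟩ := (Set.toFinite {U : Subgroup G | U.Normal ∧ U ≠ ⊤}).exists_maximal
    ⟨⊥, inferInstance, bot_ne_top⟩
  have hNn : N.Normal := hN.1.1
  have hNt : N ≠ ⊤ := hN.1.2
  have hsimple : IsSimpleGroup (G ⧸ N) := by
    have : Nontrivial (G ⧸ N) := QuotientGroup.nontrivial_iff.2 hNt
    refine ⟨fun H hH => ?_⟩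
    by_cases h1 : H.comap (QuotientGroup.mk' N) = ⊤
    · right
      rw [eq_top_iff] at h1 ⊢
      intro s _
      obtain ⟨g, rfl⟩ := QuotientGroup.mk'_surjective N s
      exact h1 (Subgroup.mem_top g)
    · left
      have h2 : N ≤ H.comap (QuotientGroup.mk' N) := by
        intro g hg
        rw [Subgroup.mem_comap]
        have : QuotientGroup.mk' N g = 1 := (QuotientGroup.eq_one_iff g).2 hg
        rw [this]
        exact H.one_mem
      have h3 : H.comap (QuotientGroup.mk' N) ≤ N := hN.2 ⟨inferInstance, h1⟩ h2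
      rw [eq_bot_iff]
      intro s hs'
      obtain ⟨g, rfl⟩ := QuotientGroup.mk'_surjective N s
      exact Subgroup.mem_bot.2 ((QuotientGroup.eq_one_iff g).2 (h3 hs'))
  by_cases hcomm : ∃ a b : G ⧸ N, a * b ≠ b * a
  · -- the simple quotient is not commutative
    obtain ⟨a, b, ha, hb, hab⟩ := hG (G ⧸ N) (QuotientGroup.mk' N)
      (QuotientGroup.mk'_surjective N) hsimple hcomm
    have hfin : Finite (G ⧸ N) := inferInstance
    obtain ⟨J, hJ, hJa⟩ := lift_irred (QuotientGroup.mk' N) (QuotientGroup.mk'_surjective N)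
      (supIrred_zpowers ha)
    obtain ⟨K, hK, hKb⟩ := lift_irred (QuotientGroup.mk' N) (QuotientGroup.mk'_surjective N)
      (supIrred_zpowers hb)
    have hnot : ∀ (J : Subgroup G) (a : G ⧸ N), IsPrimePow (orderOf a) →
        J.map (QuotientGroup.mk' N) = Subgroup.zpowers a → ¬ J ≤ N := by
      intro J a ha hJa hle
      have h1 : J.map (QuotientGroup.mk' N) ≤ ⊥ := by
        rw [Subgroup.map_le_iff_le_comap, MonoidHom.comap_bot, QuotientGroup.ker_mk']
        exact hle
      rw [hJa, Subgroup.zpowers_le, Subgroup.mem_bot] at h1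
      rw [h1, orderOf_one] at ha
      exact not_isPrimePow_one ha
    have hJN := hnot J a ha hJa
    have hKN := hnot K b hb hKb
    have htop : (J ⊔ K) ⊔ N = ⊤ := by
      have h1 : ((J ⊔ K) ⊔ N).map (QuotientGroup.mk' N) = ⊤ := by
        rw [eq_top_iff, ← hab, Subgroup.closure_le]
        rintro s (rfl | rfl)
        · have h2 : s ∈ J.map (QuotientGroup.mk' N) := by
            rw [hJa]; exact Subgroup.mem_zpowers s
          exact Subgroup.map_mono (le_sup_left.trans le_sup_left) h2
        · have h2 : s ∈ K.map (QuotientGroup.mk' N) := by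
            rw [hKb]; exact Subgroup.mem_zpowers s
          exact Subgroup.map_mono (le_sup_right.trans le_sup_left) h2
      have h2 : N ≤ (J ⊔ K) ⊔ N := le_sup_right
      have h3 := Subgroup.comap_map_eq_self (f := QuotientGroup.mk' N) (H := (J ⊔ K) ⊔ N)
        (by rw [QuotientGroup.ker_mk']; exact h2)
      rw [← h3, h1, Subgroup.comap_top]
    have hV : ∃ V : Subgroup G, ¬ V ≤ N ∧ ¬ J ≤ V ∧ ¬ K ≤ V := by
      by_contra hno
      push Not at hno
      obtain ⟨x, hxJ, hxN⟩ := SetLike.not_le_iff_exists.1 hJN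
      obtain ⟨y, hyK, hyN⟩ := SetLike.not_le_iff_exists.1 hKN
      have hcen : ∀ z : G, z ∉ N → ∃ s : G ⧸ N, s * (z : G ⧸ N) ≠ (z : G ⧸ N) * s := by
        intro z hz
        by_contra h1
        push Not at h1
        have h2 : (z : G ⧸ N) ∈ Subgroup.center (G ⧸ N) := Subgroup.mem_center_iff.2 h1
        rcases hsimple.eq_bot_or_eq_top_of_normal (Subgroup.center (G ⧸ N)) inferInstance with
          h3 | h3
        · rw [h3, Subgroup.mem_bot] at h2
          exact hz ((QuotientGroup.eq_one_iff z).1 h2)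
        · obtain ⟨s, t, hst⟩ := hcomm
          have h4 : t ∈ Subgroup.center (G ⧸ N) := by rw [h3]; exact Subgroup.mem_top t
          exact hst (Subgroup.mem_center_iff.1 h4 s)
      have hcov : ∀ s : G ⧸ N, s * (x : G ⧸ N) = (x : G ⧸ N) * s ∨
          s * (y : G ⧸ N) = (y : G ⧸ N) * s := by
        intro s
        obtain ⟨g, rfl⟩ := QuotientGroup.mk'_surjective N s
        by_cases hg : g ∈ N
        · left
          have : (QuotientGroup.mk' N) g = 1 := (QuotientGroup.eq_one_iff g).2 hg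
          rw [this, one_mul, mul_one]
        · have h1 : ¬ Subgroup.zpowers g ≤ N := by
            rw [Subgroup.zpowers_le]; exact hg
          have hcommute : ∀ z ∈ Subgroup.zpowers g, (QuotientGroup.mk' N) g * (z : G ⧸ N) =
              (z : G ⧸ N) * (QuotientGroup.mk' N) g := by
            intro z hz
            obtain ⟨i, rfl⟩ := Subgroup.mem_zpowers_iff.1 hz
            change ((g : G ⧸ N)) * ((g ^ i : G) : G ⧸ N) = ((g ^ i : G) : G ⧸ N) * (g : G ⧸ N)
            rw [← QuotientGroup.mk_mul, ← QuotientGroup.mk_mul, (Commute.self_zpow g i).eq]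
          by_cases hJV : J ≤ Subgroup.zpowers g
          · exact Or.inl (hcommute x (hJV hxJ))
          · exact Or.inr (hcommute y (hno _ h1 hJV hyK))
      obtain ⟨s, hs1⟩ := hcen x hxN
      obtain ⟨t, ht1⟩ := hcen y hyN
      have hs2 := (hcov s).resolve_left hs1
      have ht2 := (hcov t).resolve_right ht1
      rcases hcov (s * t) with h1 | h1
      · apply hs1
        have h2 : s * (x : G ⧸ N) * t = (x : G ⧸ N) * s * t := by
          rw [mul_assoc, ← ht2, ← mul_assoc, h1, mul_assoc]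
        exact mul_right_cancel h2
      · apply ht1
        have h2 : s * (t * (y : G ⧸ N)) = s * ((y : G ⧸ N) * t) := by
          rw [← mul_assoc, h1, ← mul_assoc, ← hs2, mul_assoc]
        exact mul_left_cancel h2
    exact ⟨N, J, K, hJ, hK, hJN, hKN, fun U h1 h2 => by
      rw [inf_comm, ← normal_modular N (sup_le h1 h2), htop, top_inf_eq], Or.inl hV⟩
  · -- the simple quotient is commutative
    push Not at hcomm
    obtain ⟨J, hJN, hJ⟩ := exists_minimal_not_le (fun U : Subgroup G => ¬ U ≤ N)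
      ⟨⊤, fun h1 => hNt (top_le_iff.1 h1)⟩ (fun h1 => h1 bot_le)
      (fun A B hA hB => by
        push Not at hA hB ⊢
        exact sup_le hA hB)
    have htop : J ⊔ N = ⊤ := by
      have hnor : (J ⊔ N).Normal := by
        constructor
        intro g hg h
        have h1 : (h * g * h⁻¹ * g⁻¹) ∈ N := by
          rw [← QuotientGroup.eq_one_iff]
          have h2 := hcomm (h : G ⧸ N) (g : G ⧸ N)
          change ((h : G ⧸ N) * (g : G ⧸ N) * (h : G ⧸ N)⁻¹ * (g : G ⧸ N)⁻¹) = 1
          rw [h2, mul_assoc (g : G ⧸ N), mul_inv_cancel, mul_one, mul_inv_cancel]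
        have h3 : h * g * h⁻¹ = (h * g * h⁻¹ * g⁻¹) * g := by group
        rw [h3]
        exact (J ⊔ N).mul_mem (le_sup_right (a := J) h1) hg
      by_contra hne
      have h1 : J ⊔ N ≤ N := hN.2 ⟨hnor, hne⟩ le_sup_right
      exact hJN (le_sup_left.trans h1)
    exact ⟨N, J, J, hJ, hJ, hJN, hJN, fun U h1 _ => by
      rw [sup_idem, inf_comm, ← normal_modular N h1, htop, top_inf_eq], Or.inr rfl⟩

namespace Core

variable {S : Type u} [Semigroup S] [Finite S] (c : Core S)

/-- the elements outside the class of the idempotent, and those of a subgroup -/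
def NI (N : Subgroup c.H) : Subsemigroup S where
  carrier := {x | ¬ D x c.e ∨ x ∈ c.toSub N}
  mul_mem' := by
    rintro x y hx hy
    by_cases h : D (x * y) c.e
    · rcases hx with hx | hx
      · exact absurd h.mul_left hx
      · rcases hy with hy | hy
        · exact absurd h.mul_right hy
        · exact Or.inr ((c.toSub N).mul_mem hx hy)
    · exact Or.inl h

theorem mem_NI {N : Subgroup c.H} {x : S} : x ∈ c.NI N ↔ ¬ D x c.e ∨ x ∈ c.toSub N := Iff.rfl

theorem toSub_le_NI {N J : Subgroup c.H} : c.toSub J ≤ c.NI N ↔ J ≤ N := by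
  constructor
  · intro h x hx
    rcases h (c.mem_toSub'.2 hx) with h1 | h1
    · exact absurd x.2.1 h1
    · exact c.mem_toSub'.1 h1
  · intro h x hx
    exact Or.inr (c.toSub_mono.2 h hx)

theorem strong_of_nontrivial [Nontrivial c.H] (hG : TopGenerated c.H) :
    Strong (Subsemigroup S) := by
  obtain ⟨N, J, K, hJ, hK, hJN, hKN, hrec, -⟩ := group_data c.H hG
  have hcard := c.phi_crit (c.NI N) (c.toSub J) (c.toSub K) (fun x hx => Or.inl hx)
    (fun h => hJN (c.toSub_le_NI.1 h)) (fun h => hKN (c.toSub_le_NI.1 h))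
    (c.e_mem_toSub J) (c.e_mem_toSub K) ?_ ?_
  · rcases hcard with h | h
    · exact ⟨_, c.supIrred_toSub hJ, h⟩
    · exact ⟨_, c.supIrred_toSub hK, h⟩
  · intro T1 T2 hJ1 hK1 hJ2 hK2 hT x hxD hx1 hx2 hx
    have he1 : c.e ∈ T1 := hJ1 (c.e_mem_toSub J)
    have he2 : c.e ∈ T2 := hJ2 (c.e_mem_toSub J)
    have h1 := hrec (c.ofSub T1 he1) ((c.toSub_le_iff he1).1 hJ1) ((c.toSub_le_iff he1).1 hK1)
    have h2 := hrec (c.ofSub T2 he2) ((c.toSub_le_iff he2).1 hJ2) ((c.toSub_le_iff he2).1 hK2)
    have h3 : c.ofSub T1 he1 ⊓ N = c.ofSub T2 he2 ⊓ N := by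
      ext y
      have h4 : y ∈ N → (y.1 ∈ T1 ↔ y.1 ∈ T2) := fun hy => hT y.1 (Or.inr (c.mem_toSub'.2 hy))
      constructor
      · rintro ⟨h5, h6⟩
        exact ⟨(h4 h6).1 h5, h6⟩
      · rintro ⟨h5, h6⟩
        exact ⟨(h4 h6).2 h5, h6⟩
    have h4 : c.ofSub T1 he1 = c.ofSub T2 he2 := by rw [← h1, h3, h2]
    have h5 : (⟨x, hxD, hx1, hx2⟩ : c.H) ∈ c.ofSub T1 he1 := hx
    rw [h4] at h5
    exact h5
  · refine ⟨⊥, ?_, ?_, ?_⟩
    · intro h; exact Subsemigroup.notMem_bot (h (c.e_mem_toSub J))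
    · intro h; exact Subsemigroup.notMem_bot (h (c.e_mem_toSub K))
    · intro U hU1 hU2 h
      have heU : c.e ∈ U := hU1 (c.e_mem_toSub J)
      have hno : ∀ x, x ∉ c.phi (c.NI N) U := fun x hx => by
        rw [h] at hx; exact Subsemigroup.notMem_bot hx
      by_cases h1 : ∃ y ∈ U, D y c.e ∧ c.e * y ≠ y
      · rw [c.phi_R h1] at hno
        obtain ⟨y, hy, hyD, hyR⟩ := h1
        exact hno y ⟨hy, fun h2 => hyR h2.2⟩
      · by_cases h2 : ∃ y ∈ U, D y c.e ∧ y * c.e ≠ y
        · rw [c.phi_L h1 h2] at hno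
          obtain ⟨y, hy, hyD, hyR⟩ := h2
          exact hno y ⟨hy, fun h2 => hyR h2.2⟩
        · rw [c.phi_N h1 h2] at hno
          exact hno c.e ⟨heU, Or.inr (c.e_mem_toSub N)⟩

/-- the subsemigroup with one element -/
def single : Subsemigroup S where
  carrier := {c.e}
  mul_mem' := by
    rintro x y hx hy
    rw [Set.mem_singleton_iff] at hx hy ⊢
    rw [hx, hy, c.he]

theorem mem_single {x : S} : x ∈ c.single ↔ x = c.e := Iff.rfl

theorem single_le {T : Subsemigroup S} : c.single ≤ T ↔ c.e ∈ T :=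
  ⟨fun h => h rfl, fun h x hx => by rw [c.mem_single.1 hx]; exact h⟩

theorem supIrred_single : SupIrred c.single := by
  refine ⟨?_, ?_⟩
  · intro hmin
    have h1 : c.single ≤ ⊥ := hmin bot_le
    exact Subsemigroup.notMem_bot (h1 (c.mem_single.2 rfl))
  · intro A B hAB
    have hA : A ≤ c.single := by rw [← hAB]; exact le_sup_left
    have hB : B ≤ c.single := by rw [← hAB]; exact le_sup_right
    by_cases h1 : c.e ∈ A
    · left; exact le_antisymm hA (c.single_le.2 h1)
    · right
      have h2 : A = ⊥ := eq_bot_iff.2 fun x hx => by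
        exact absurd (by rw [← c.mem_single.1 (hA hx)]; exact hx) h1
      rw [← hAB, h2, bot_sup_eq]

/-- the elements outside the class of the idempotent -/
def NI0 : Subsemigroup S where
  carrier := {x | ¬ D x c.e}
  mul_mem' := fun {_ _} hx _ h => hx h.mul_left

/-- the maximal subgroup is trivial, and the class has several rows and columns -/
theorem strong_of_trivial (hH : ∀ x, D x c.e → c.e * x = x → x * c.e = x → x = c.e)
    (hR : ∃ x, D x c.e ∧ c.e * x ≠ x) (hL : ∃ x, D x c.e ∧ x * c.e ≠ x) :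
    Strong (Subsemigroup S) := by
  have hcard := c.phi_crit c.NI0 c.single c.single (fun x hx => hx)
    (fun h => (c.single_le.1 h) c.De) (fun h => (c.single_le.1 h) c.De)
    (c.mem_single.2 rfl) (c.mem_single.2 rfl) ?_ ?_
  · rcases hcard with h | h
    · exact ⟨_, c.supIrred_single, h⟩
    · exact ⟨_, c.supIrred_single, h⟩
  · intro T1 T2 _ _ h2 _ _ x hxD hx1 hx2 _
    rw [hH x hxD hx1 hx2]
    exact c.single_le.1 h2
  · refine ⟨c.NL, ?_, ?_, ?_⟩
    · intro h; exact (c.single_le.1 h) ⟨c.De, c.he⟩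
    · intro h; exact (c.single_le.1 h) ⟨c.De, c.he⟩
    · intro U hU _ h
      have heU : c.e ∈ U := c.single_le.1 hU
      obtain ⟨x, hxD, hxR⟩ := hR
      obtain ⟨y, hyD, hyL⟩ := hL
      have hyU : y ∈ U := by
        have : y ∈ c.NL := fun h2 => hyL h2.2
        rw [← h] at this
        exact c.phi_le this
      have hxyU : x * y ∈ c.NL := fun h2 => hyL (c.L_of_mul h2).2
      have hxyD : D (x * y) c.e := c.hcl _ _ hxD hyD
      have hxyR : c.e * (x * y) ≠ x * y := fun h2 => hxR (c.R_of_mul ⟨hxyD, h2⟩).2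
      have hcl : ∃ y ∈ U, D y c.e ∧ c.e * y ≠ y := by
        refine ⟨x * y, ?_, hxyD, hxyR⟩
        rw [← h] at hxyU
        exact c.phi_le hxyU
      rw [c.phi_R hcl] at h
      -- the right class lies in the left class, hence is trivial
      have h1 : ∀ z, c.R z → c.Lc z := by
        intro z hz
        by_contra h2
        have h3 : z ∈ c.NL := h2
        rw [← h] at h3
        exact h3.2 hz
      -- `x * y ≠ e * y ...`
      have h2 : c.R (c.e * y) := ⟨c.hcl _ _ c.De hyD, by rw [← mul_assoc, c.he]⟩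
      exact hyL (c.L_of_mul (h1 _ h2)).2

/-- the maximal subgroup is trivial and the class is one row or one column: the other elements form
a subsemigroup -/
theorem mul_ne_of_trivial (hH : ∀ x, D x c.e → c.e * x = x → x * c.e = x → x = c.e)
    (h : (∀ x, D x c.e → c.e * x = x) ∨ (∀ x, D x c.e → x * c.e = x)) (x y : S)
    (hxy : x * y = c.e) : x = c.e ∨ y = c.e := by
  have hD : D (x * y) c.e := by rw [hxy]; exact c.De
  rcases h with h | h
  · right
    refine hH y hD.mul_right (h y hD.mul_right) ?_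
    obtain ⟨z, hz⟩ := c.fac_right hD
    apply WithOne.coe_inj.1
    rw [← WithOne.coe_mul, hxy] at hz
    rw [WithOne.coe_mul, hz, mul_assoc, ← WithOne.coe_mul, c.he]
  · left
    refine hH x hD.mul_left ?_ (h x hD.mul_left)
    obtain ⟨z, hz⟩ := c.fac_left hD
    apply WithOne.coe_inj.1
    rw [← WithOne.coe_mul, hxy] at hz
    rw [WithOne.coe_mul, hz, ← mul_assoc, ← WithOne.coe_mul, c.he]

end Core

end Pool.Agent.T2H83.PS
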