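import Pool.Agent.T2H83.PS.Core

/-!
# A maximal regular class that is not a subsemigroup
-/

set_option autoImplicit false
set_option linter.unusedSectionVars false

namespace Pool.Agent.T2H83.PS

open Pool.Agent.R636.FL

variable {S : Type*} [Semigroup S] [Finite S]

/-- the elements outside the right class and outside the left class of `f` -/
def NN (e : S) (hmax : ∀ x : S, D x e → D e x) (f : S) : Subsemigroup S where
  carrier := {x | ¬ (D x e ∧ f * x = x) ∧ ¬ (D x e ∧ x * f = x)}
  mul_mem' := fun {_ _} hx hy =>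
    ⟨fun h => hx.1 (R_of_mul' hmax h), fun h => hy.2 (L_of_mul' hmax h)⟩

theorem mem_NN {e : S} {hmax : ∀ x : S, D x e → D e x} {f x : S} :
    x ∈ NN e hmax f ↔ ¬ (D x e ∧ f * x = x) ∧ ¬ (D x e ∧ x * f = x) := Iff.rfl

/-- the proper divisors-multiples -/
def Id (x : S) : Subsemigroup S where
  carrier := {u | D (x * x) u}
  mul_mem' := by
    rintro u v ⟨s, t, hs⟩ -
    exact ⟨s, t * v, by rw [WithOne.coe_mul u v, ← hs]; simp only [mul_assoc]⟩

theorem supIrred_closure {e x : S} (hx : D x e) (hxx : ¬ D (x * x) e) :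
    SupIrred (Subsemigroup.closure {x}) := by
  have hxI : x ∉ Id x := fun h => hxx (D.trans h hx)
  have hcl : ∀ u ∈ Subsemigroup.closure {x}, u = x ∨ D (x * x) u := by
    intro u hu
    induction hu using Subsemigroup.closure_induction with
    | mem u hu => exact Or.inl hu
    | mul u v _ _ hu hv =>
      right
      rcases hu with rfl | ⟨s, t, hs⟩
      · rcases hv with rfl | ⟨s, t, hs⟩
        · exact D.refl _
        · exact ⟨u * s, t, by rw [WithOne.coe_mul u v, ← hs]; simp only [mul_assoc]⟩
      · exact ⟨s, t * v, by rw [WithOne.coe_mul u v, ← hs]; simp only [mul_assoc]⟩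
  have hxm : x ∈ Subsemigroup.closure {x} := Subsemigroup.subset_closure rfl
  refine ⟨?_, ?_⟩
  · intro hmin
    have h1 : Subsemigroup.closure {x} ≤ ⊥ := hmin bot_le
    exact Subsemigroup.notMem_bot (h1 hxm)
  · intro A B hAB
    have hA : A ≤ Subsemigroup.closure {x} := by rw [← hAB]; exact le_sup_left
    have hB : B ≤ Subsemigroup.closure {x} := by rw [← hAB]; exact le_sup_right
    by_cases h1 : x ∈ A
    · left
      exact le_antisymm hA ((Subsemigroup.closure_le).2 (by
        rintro y hy; rw [Set.mem_singleton_iff.1 hy]; exact h1))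
    · by_cases h2 : x ∈ B
      · right
        exact le_antisymm hB ((Subsemigroup.closure_le).2 (by
          rintro y hy; rw [Set.mem_singleton_iff.1 hy]; exact h2))
      · exfalso
        have h3 : ∀ A : Subsemigroup S, A ≤ Subsemigroup.closure {x} → x ∉ A → A ≤ Id x := by
          intro A hA hxA u hu
          rcases hcl u (hA hu) with h4 | h4
          · exact absurd (by rw [← h4]; exact hu) hxA
          · exact h4
        have h4 : A ⊔ B ≤ Id x := sup_le (h3 A hA h1) (h3 B hB h2)
        rw [hAB] at h4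
        exact hxI (h4 hxm)

/-- the subsemigroup with one idempotent element -/
def sing (f : S) (hf : f * f = f) : Subsemigroup S where
  carrier := {f}
  mul_mem' := by
    rintro x y hx hy
    rw [Set.mem_singleton_iff] at hx hy ⊢
    rw [hx, hy, hf]

theorem supIrred_sing (f : S) (hf : f * f = f) : SupIrred (sing f hf) := by
  have hle : ∀ T : Subsemigroup S, f ∈ T → sing f hf ≤ T := fun T h x hx => by
    rw [Set.mem_singleton_iff.1 hx]; exact h
  have hm : f ∈ sing f hf := rfl
  refine ⟨?_, ?_⟩
  · intro hmin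
    have h1 : sing f hf ≤ ⊥ := hmin bot_le
    exact Subsemigroup.notMem_bot (h1 hm)
  · intro A B hAB
    have hA : A ≤ sing f hf := by rw [← hAB]; exact le_sup_left
    have hB : B ≤ sing f hf := by rw [← hAB]; exact le_sup_right
    by_cases h1 : f ∈ A
    · left; exact le_antisymm hA (hle A h1)
    · right
      have h2 : A = ⊥ := eq_bot_iff.2 fun x hx => by
        exact absurd (by rw [← Set.mem_singleton_iff.1 (hA hx)]; exact hx) h1
      rw [← hAB, h2, bot_sup_eq]

/-- the injection for a class that is not a subsemigroup -/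
theorem nn_crit {e : S} (hmax : ∀ x : S, D x e → D e x) {x q f : S} (hxq : x * q = f)
    (hxf : x * f ≠ x)
    (hfq : f * q ≠ q) {K1 K2 : Subsemigroup S} (h1 : SupIrred K1) (h2 : SupIrred K2)
    (h1N : ¬ K1 ≤ NN e hmax f) (h2N : ¬ K2 ≤ NN e hmax f) (hxK : x ∈ K1 ⊔ K2)
    (hqK : q ∈ K1 ⊔ K2) : Strong (Subsemigroup S) := by
  have hcard := two_inj (J := K1) (K := K2) (fun T : Subsemigroup S => T ⊓ NN e hmax f) ?_ ?_ ?_
  · rcases hcard with h | h
    · exact ⟨_, h1, h⟩
    · exact ⟨_, h2, h⟩
  · intro U _ _
    exact ⟨fun h => h1N (h.trans inf_le_right), fun h => h2N (h.trans inf_le_right)⟩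
  · -- every element of `U` is recovered
    have key : ∀ U W : Subsemigroup S, K1 ≤ U → K2 ≤ U → K1 ≤ W → K2 ≤ W →
        U ⊓ NN e hmax f = W ⊓ NN e hmax f → U ≤ W := by
      intro U W hU1 hU2 hW1 hW2 h y hy
      have hxU : x ∈ U := sup_le hU1 hU2 hxK
      have hqU : q ∈ U := sup_le hU1 hU2 hqK
      have hxW : x ∈ W := sup_le hW1 hW2 hxK
      have hqW : q ∈ W := sup_le hW1 hW2 hqK
      have hmem : ∀ w, w ∈ U → w ∈ NN e hmax f → w ∈ W := by
        intro w hw hwN
        have h3 : w ∈ U ⊓ NN e hmax f := ⟨hw, hwN⟩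
        rw [h] at h3
        exact h3.1
      have hqR : ∀ w, ¬ (D (q * w) e ∧ f * (q * w) = q * w) := fun w h3 =>
        hfq (R_of_mul' hmax h3).2
      have hxL : ∀ w, ¬ (D (w * x) e ∧ (w * x) * f = w * x) := fun w h3 =>
        hxf (L_of_mul' hmax h3).2
      by_cases hR : D y e ∧ f * y = y
      · by_cases hL : D y e ∧ y * f = y
        · -- `y = x * (q * y * x) * q`
          have h3 : q * y * x ∈ W := by
            refine hmem _ (U.mul_mem (U.mul_mem hqU hy) hxU) ⟨?_, hxL _⟩
            rw [mul_assoc]; exact hqR _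
          have h4 : x * (q * y * x) * q = y := by
            calc x * (q * y * x) * q = (x * q) * y * (x * q) := by simp only [mul_assoc]
              _ = y := by rw [hxq, hR.2, hL.2]
          rw [← h4]
          exact W.mul_mem (W.mul_mem hxW h3) hqW
        · have h3 : q * y ∈ W := by
            refine hmem _ (U.mul_mem hqU hy) ⟨hqR _, fun h5 => hL ?_⟩
            exact L_of_mul' hmax h5
          have h4 : x * (q * y) = y := by rw [← mul_assoc, hxq, hR.2]
          rw [← h4]
          exact W.mul_mem hxW h3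
      · by_cases hL : D y e ∧ y * f = y
        · have h3 : y * x ∈ W := by
            refine hmem _ (U.mul_mem hy hxU) ⟨fun h5 => hR ?_, hxL _⟩
            exact R_of_mul' hmax h5
          have h4 : (y * x) * q = y := by rw [mul_assoc, hxq, hL.2]
          rw [← h4]
          exact W.mul_mem h3 hqW
        · exact hmem y hy ⟨hR, hL⟩
    intro U W hU1 hU2 hW1 hW2 h
    exact le_antisymm (key U W hU1 hU2 hW1 hW2 h) (key W U hW1 hW2 hU1 hU2 h.symm)
  · refine ⟨⊥, ?_, ?_, ?_⟩
    · intro h; exact h1N (h.trans bot_le)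
    · intro h; exact h2N (h.trans bot_le)
    · intro U hU1 hU2 h
      have hxU : x ∈ U := sup_le hU1 hU2 hxK
      have hqU : q ∈ U := sup_le hU1 hU2 hqK
      have h3 : q * x ∈ U ⊓ NN e hmax f := by
        refine ⟨U.mul_mem hqU hxU, fun h5 => hfq ?_, fun h5 => hxf ?_⟩
        · exact (R_of_mul' hmax h5).2
        · exact (L_of_mul' hmax h5).2
      have h4 : q * x ∈ (⊥ : Subsemigroup S) := by
        rw [← h]; exact h3
      exact Subsemigroup.notMem_bot h4

/-- a maximal regular class that is not a subsemigroup -/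
theorem strong_of_not_closed {e : S} (he : e * e = e) (hmax : ∀ x : S, D x e → D e x) {x : S}
    (hx : D x e) (hxx : ¬ D (x * x) e) : Strong (Subsemigroup S) := by
  obtain ⟨u, hu⟩ := regular he hx (hmax x hx)
  -- the inverse `q` of `x`
  obtain ⟨q, hq1, hq2⟩ : ∃ q, x * q * x = x ∧ q * x * q = q := by
    refine ⟨u * x * u, ?_, ?_⟩
    · calc x * (u * x * u) * x = (x * u * x) * u * x := by simp only [mul_assoc]
        _ = x := by rw [hu, hu]
    · calc u * x * u * x * (u * x * u) = u * ((x * u * x) * u * x) * u := by simp only [mul_assoc]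
        _ = u * x * u := by rw [hu, hu]
  have hqe : D q e := (show D q x from ⟨x, x, by rw [← WithOne.coe_mul, ← WithOne.coe_mul, hq1]⟩).trans hx
  have hf : (x * q) * (x * q) = x * q := by rw [← mul_assoc, hq1]
  have hfx : (x * q) * x = x := hq1
  have hqf : q * (x * q) = q := by rw [← mul_assoc, hq2]
  have hxf : x * (x * q) ≠ x := by
    intro h
    apply hxx
    have h1 : D (x * x) x := ⟨1, q, by
      rw [one_mul, ← WithOne.coe_mul, mul_assoc, h]⟩
    exact h1.trans hx
  have hfq : (x * q) * q ≠ q := by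
    intro h
    apply hxx
    have h1 : D (x * x) x := ⟨1, (q * q * x : S), by
      rw [one_mul, ← WithOne.coe_mul]
      congr 1
      calc x * x * (q * q * x) = x * ((x * q) * q) * x := by simp only [mul_assoc]
        _ = x := by rw [h, hq1]⟩
    exact h1.trans hx
  have hK1 := supIrred_closure hx hxx
  have hxK : x ∈ Subsemigroup.closure {x} := Subsemigroup.subset_closure rfl
  have h1N : ¬ Subsemigroup.closure {x} ≤ NN e hmax (x * q) := fun h => (h hxK).1 ⟨hx, hfx⟩
  by_cases hqq : D (q * q) e
  · -- `q` lies in a subgroup with identity `g = q ^ m`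
    obtain ⟨z, hz⟩ := facL hmax hqq
    have hz' : (q : WithOne S) * q * z = q := hz.symm
    obtain ⟨-, n, hn⟩ := stab hz'
    obtain ⟨g, hg⟩ : ∃ g : S, (g : WithOne S) = (q : WithOne S) ^ (n + 1) := by
      obtain ⟨g, hg⟩ := mul_coe' q ((q : WithOne S) ^ n)
      exact ⟨g, by rw [hg, pow_succ]⟩
    have hn' : (q : WithOne S) * q ^ (n + 1) = q := by rw [← pow_succ', pow_succ, hn]
    have hgg : g * g = g := by
      apply WithOne.coe_inj.1
      rw [WithOne.coe_mul, hg]
      conv_lhs => rw [pow_succ (q : WithOne S) n, mul_assoc, ← pow_succ, hn', ← pow_succ]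
    have hgq : g * q = q := by
      apply WithOne.coe_inj.1
      rw [WithOne.coe_mul, hg, hn]
    have hgf : g * (x * q) = g := by
      apply WithOne.coe_inj.1
      rw [WithOne.coe_mul, hg, pow_succ, mul_assoc, ← WithOne.coe_mul, hqf]
    have hge : D g e := (show D g q from ⟨1, q, by
      rw [one_mul, ← WithOne.coe_mul, hgq]⟩).trans hqe
    have hgm : g ∈ sing g hgg := rfl
    have h2N : ¬ sing g hgg ≤ NN e hmax (x * q) := fun h => (h hgm).2 ⟨hge, hgf⟩
    -- the element `w = g * x * g` is the inverse of `q` in its subgroup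
    have hwq : g * x * g * q = g := by
      calc g * x * g * q = g * (x * (g * q)) := by simp only [mul_assoc]
        _ = g := by rw [hgq, hgf]
    have hpow : ∀ i : ℕ, ((g * x * g : S) : WithOne S) ^ i * (q : WithOne S) ^ (i + 1) = q := by
      intro i
      induction i with
      | zero => rw [pow_zero, one_mul, zero_add, pow_one]
      | succ i ih =>
        calc ((g * x * g : S) : WithOne S) ^ (i + 1) * (q : WithOne S) ^ (i + 1 + 1)
            = ((g * x * g : S) : WithOne S) ^ i * (((g * x * g : S) : WithOne S) * q) *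
              (q : WithOne S) ^ (i + 1) := by
              rw [pow_succ, pow_succ' (q : WithOne S) (i + 1)]; simp only [mul_assoc]
          _ = ((g * x * g : S) : WithOne S) ^ i * (g * q * (q : WithOne S) ^ i) := by
              rw [← WithOne.coe_mul, hwq, pow_succ' (q : WithOne S) i]; simp only [mul_assoc]
          _ = q := by rw [← WithOne.coe_mul, hgq, ← pow_succ', ih]
    -- hence `q = w ^ n * g`
    have hqw : ((g * x * g : S) : WithOne S) ^ n * g = q := by
      rw [hg, hpow n]
    have hqK : q ∈ Subsemigroup.closure {x} ⊔ sing g hgg := by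
      have hgK : g ∈ Subsemigroup.closure {x} ⊔ sing g hgg :=
        (le_sup_right : sing g hgg ≤ _) hgm
      have hxK' : x ∈ Subsemigroup.closure {x} ⊔ sing g hgg :=
        (le_sup_left : Subsemigroup.closure {x} ≤ _) hxK
      have hwK : g * x * g ∈ Subsemigroup.closure {x} ⊔ sing g hgg :=
        Subsemigroup.mul_mem _ (Subsemigroup.mul_mem _ hgK hxK') hgK
      have h3 : ∀ k : ℕ, ∃ v ∈ Subsemigroup.closure {x} ⊔ sing g hgg,
          (v : WithOne S) = ((g * x * g : S) : WithOne S) ^ k * g := by
        intro k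
        induction k with
        | zero => exact ⟨g, hgK, by rw [pow_zero, one_mul]⟩
        | succ k ih =>
          obtain ⟨v, hv, h4⟩ := ih
          exact ⟨g * x * g * v, Subsemigroup.mul_mem _ hwK hv, by
            rw [WithOne.coe_mul (g * x * g) v, h4, pow_succ',
              ← mul_assoc ((g * x * g : S) : WithOne S)]⟩
      obtain ⟨v, hv, h4⟩ := h3 n
      rw [hqw] at h4
      rw [← WithOne.coe_inj.1 h4]
      exact hv
    exact nn_crit hmax rfl hxf hfq hK1 (supIrred_sing g hgg) h1N h2N
      ((le_sup_left : Subsemigroup.closure {x} ≤ _) hxK) hqK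
  · have hqm : q ∈ Subsemigroup.closure {q} := Subsemigroup.subset_closure rfl
    exact nn_crit hmax rfl hxf hfq hK1 (supIrred_closure hqe hqq) h1N
      (fun h => (h hqm).2 ⟨hqe, hqf⟩) ((le_sup_left : Subsemigroup.closure {x} ≤ _) hxK)
      ((le_sup_right : Subsemigroup.closure {q} ≤ _) hqm)

end Pool.Agent.T2H83.PS
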