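import Pool.Agent.T2H83.PS.Grp
import Pool.Agent.T2H83.PS.NonClosed

/-!
# The lattice of the subsemigroups of a finite semigroup
-/

set_option autoImplicit false
set_option linter.unusedSectionVars false

namespace Pool.Agent.T2H83.PS

open Pool.Agent.R636.FL
open Pool.Agent.T2H46.PoonenGrp

universe u

/-- the groups in the semigroup have well generated simple quotients -/
def GG (S : Type u) [Semigroup S] : Prop :=
  ∀ (G : Type u) [Group G] (φ : G →ₙ* S), Function.Injective φ → TopGenerated G

theorem GG.sub {S : Type u} [Semigroup S] (h : GG S) (N : Subsemigroup S) : GG N := by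
  intro G _ φ hφ
  exact h G ((MulMemClass.subtype N).comp φ) (Subtype.val_injective.comp hφ)

/-- the elements other than `a` -/
def rem {S : Type u} [Semigroup S] (a : S) (h : ∀ x y : S, x * y = a → x = a ∨ y = a) :
    Subsemigroup S where
  carrier := {x | x ≠ a}
  mul_mem' := fun {x y} hx hy h1 => (h x y h1).elim hx hy

/-- the subsemigroups of a subsemigroup -/
def subIso {S : Type u} [Semigroup S] (N : Subsemigroup S) : Subsemigroup N ≃o Set.Iic N where
  toFun A := ⟨A.map (MulMemClass.subtype N), by
    rintro x hx
    obtain ⟨y, -, rfl⟩ := Subsemigroup.mem_map.1 hx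
    exact y.2⟩
  invFun B := B.1.comap (MulMemClass.subtype N)
  left_inv A := Subsemigroup.comap_map_eq_of_injective Subtype.val_injective A
  right_inv B := by
    apply Subtype.ext
    ext x
    constructor
    · intro hx
      obtain ⟨y, hy, rfl⟩ := Subsemigroup.mem_map.1 hx
      exact hy
    · intro hx
      exact Subsemigroup.mem_map.2 ⟨⟨x, B.2 hx⟩, hx, rfl⟩
  map_rel_iff' := by
    intro A B
    constructor
    · intro h x hx
      obtain ⟨y, hy, h1⟩ := Subsemigroup.mem_map.1 (h (Subsemigroup.mem_map.2 ⟨x, hx, rfl⟩))
      have : y = x := Subtype.ext h1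
      rw [← this]; exact hy
    · intro h
      rintro x hx
      obtain ⟨y, hy, rfl⟩ := Subsemigroup.mem_map.1 hx
      exact Subsemigroup.mem_map.2 ⟨y, h hy, rfl⟩

theorem good_of_remove {S : Type u} [Semigroup S] [Finite S] (a : S)
    (h : ∀ x y : S, x * y = a → x = a ∨ y = a) (ih : Good (Subsemigroup (rem a h))) :
    Good (Subsemigroup S) := by
  have hmem : ∀ U : Subsemigroup S, a ∉ U → U ≤ rem a h := by
    intro U hU x hx hxa
    exact hU (by rw [← hxa]; exact hx)
  obtain ⟨J, haJ, hJ⟩ := exists_minimal_not_le (fun U : Subsemigroup S => a ∈ U)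
    ⟨⊤, Subsemigroup.mem_top a⟩ Subsemigroup.notMem_bot
    (fun A B hA hB hAB => (sup_le (hmem A hA) (hmem B hB) hAB) rfl)
  have hJN : ¬ J ≤ rem a h := fun h1 => (h1 haJ) rfl
  have hrec : ∀ U, J ≤ U → J ⊔ (U ⊓ rem a h) = U := by
    intro U hU
    apply le_antisymm (sup_le hU inf_le_left)
    intro x hx
    by_cases hxa : x = a
    · rw [hxa]; exact (le_sup_left : J ≤ _) haJ
    · exact (le_sup_right : U ⊓ rem a h ≤ _) ⟨hx, hxa⟩
  rcases one_crit hJN hrec with h1 | h1
  · exact good_of_split hJN hrec h1 (ih.congr (subIso (rem a h)))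
  · exact Or.inl ⟨J, hJ, h1⟩

theorem card_rem_lt {S : Type u} [Semigroup S] [Finite S] (a : S)
    (h : ∀ x y : S, x * y = a → x = a ∨ y = a) : Nat.card (rem a h) < Nat.card S := by
  classical
  have := Fintype.ofFinite S
  rw [Nat.card_eq_fintype_card, Nat.card_eq_fintype_card]
  exact Fintype.card_subtype_lt (x := a) (fun h1 => h1 rfl)

theorem good_all (n : ℕ) : ∀ (S : Type u) [Semigroup S] [Finite S], Nat.card S ≤ n →
    GG S → Good (Subsemigroup S) := by
  induction n with
  | zero =>
    intro S _ _ hn _
    have : IsEmpty S := by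
      rcases Nat.card_eq_zero.1 (show Nat.card S = 0 by omega) with h | h
      · exact h
      · exact absurd h (by rw [not_infinite_iff_finite]; infer_instance)
    have : Subsingleton (Subsemigroup S) := ⟨fun A B => by
      ext x; exact isEmptyElim x⟩
    exact good_of_subsingleton
  | succ n ih =>
    intro S _ _ hn hG
    classical
    rcases isEmpty_or_nonempty S with hS | hS
    · have : Subsingleton (Subsemigroup S) := ⟨fun A B => by
        ext x; exact isEmptyElim x⟩
      exact good_of_subsingleton
    by_cases hrem : ∃ a : S, ∀ x y : S, x * y = a → x = a ∨ y = a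
    · obtain ⟨a, ha⟩ := hrem
      exact good_of_remove a ha (ih _ (by have := card_rem_lt a ha; omega) (hG.sub _))
    · push Not at hrem
      obtain ⟨a, ha⟩ := exists_max (S := S)
      obtain ⟨b, d, hbd, -, -⟩ := hrem a
      obtain ⟨e, he, -, hmax⟩ := exists_idem ha ⟨b, d, hbd⟩
      left
      by_cases hsq : ∀ x : S, D x e → D (x * x) e
      swap
      · push Not at hsq
        obtain ⟨x, hx, hxx⟩ := hsq
        exact strong_of_not_closed he hmax hx hxx
      let c : Core S := ⟨e, he, hmax, fun x y hx hy => closed_of_sq hmax hsq hx hy⟩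
      by_cases hH : Nontrivial c.H
      · refine c.strong_of_nontrivial ?_
        exact hG c.H ⟨fun x => x.1, fun x y => rfl⟩ (fun x y h => Subtype.ext h)
      · rw [not_nontrivial_iff_subsingleton] at hH
        have hH' : ∀ x, D x c.e → c.e * x = x → x * c.e = x → x = c.e := by
          intro x h1 h2 h3
          let y : c.H := ⟨x, h1, h2, h3⟩
          have : y = 1 := Subsingleton.elim _ _
          exact congrArg (fun y : c.H => y.1) this
        by_cases hR : ∃ x, D x c.e ∧ c.e * x ≠ x
        · by_cases hL : ∃ x, D x c.e ∧ x * c.e ≠ x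
          · exact c.strong_of_trivial hH' hR hL
          · exfalso
            push Not at hL
            obtain ⟨x, y, hxy, hx, hy⟩ := hrem c.e
            rcases c.mul_ne_of_trivial hH' (Or.inr hL) x y hxy with h | h
            · exact hx h
            · exact hy h
        · exfalso
          push Not at hR
          obtain ⟨x, y, hxy, hx, hy⟩ := hrem c.e
          rcases c.mul_ne_of_trivial hH' (Or.inl hR) x y hxy with h | h
          · exact hx h
          · exact hy h

/-- the lattice of the subsemigroups of a finite semigroup -/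
theorem good_semigroup (S : Type u) [Semigroup S] [Finite S] (hG : GG S) :
    Good (Subsemigroup S) :=
  good_all _ S le_rfl hG

end Pool.Agent.T2H83.PS
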