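import Mathlib

/-!
# Divisibility in finite semigroups: stability, regular elements
-/

set_option autoImplicit false

namespace Pool.Agent.T2H83.PS

section monoid

variable {M : Type*} [Monoid M] [Finite M]

theorem exists_pow_eq (q : M) : ∃ m p : ℕ, 0 < p ∧ q ^ (m + p) = q ^ m := by
  obtain ⟨i, j, hij, h⟩ := Finite.exists_ne_map_eq_of_infinite (fun n : ℕ => q ^ n)
  rcases lt_or_gt_of_ne hij with h1 | h1
  · exact ⟨i, j - i, by omega, by rw [Nat.add_sub_cancel' h1.le]; exact h.symm⟩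
  · exact ⟨j, i - j, by omega, by rw [Nat.add_sub_cancel' h1.le]; exact h⟩

theorem exists_idem_pow (q : M) : ∃ n : ℕ, q ^ (n + 1) * q ^ (n + 1) = q ^ (n + 1) := by
  obtain ⟨m, p, hp, h⟩ := exists_pow_eq q
  have h2 : ∀ a : ℕ, q ^ (m + a + p) = q ^ (m + a) := by
    intro a
    rw [show m + a + p = (m + p) + a by ring, pow_add, h, ← pow_add]
  have h3 : ∀ a k : ℕ, q ^ (m + a + k * p) = q ^ (m + a) := by
    intro a k
    induction k with
    | zero => simp
    | succ k ih =>
      rw [show m + a + (k + 1) * p = m + (a + k * p) + p by ring, h2,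
        show m + (a + k * p) = m + a + k * p by ring, ih]
  have h4 : m ≤ (m + 1) * p := by nlinarith
  have h5 : 1 ≤ (m + 1) * p := by nlinarith
  refine ⟨(m + 1) * p - 1, ?_⟩
  rw [Nat.sub_add_cancel h5, ← pow_add]
  have h6 := h3 ((m + 1) * p - m) (m + 1)
  rw [Nat.add_sub_cancel' h4] at h6
  exact h6

theorem stab {w x q : M} (h : w * x * q = x) :
    (∃ n : ℕ, x * q ^ (n + 1) = x) ∧ (∃ n : ℕ, w ^ (n + 1) * x = x) := by
  have h1 : ∀ n : ℕ, w ^ n * x * q ^ n = x := by
    intro n
    induction n with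
    | zero => simp
    | succ n ih =>
      calc w ^ (n + 1) * x * q ^ (n + 1) = w ^ n * (w * x * q) * q ^ n := by
            rw [pow_succ, pow_succ']; simp only [mul_assoc]
        _ = x := by rw [h, ih]
  constructor
  · obtain ⟨m, p, hp, h2⟩ := exists_pow_eq q
    refine ⟨p - 1, ?_⟩
    rw [Nat.sub_add_cancel hp]
    calc x * q ^ p = w ^ m * x * q ^ m * q ^ p := by rw [h1]
      _ = w ^ m * x * q ^ (m + p) := by rw [pow_add, mul_assoc]
      _ = x := by rw [h2, h1]
  · obtain ⟨m, p, hp, h2⟩ := exists_pow_eq w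
    refine ⟨p - 1, ?_⟩
    rw [Nat.sub_add_cancel hp]
    calc w ^ p * x = w ^ p * (w ^ m * x * q ^ m) := by rw [h1]
      _ = w ^ (m + p) * x * q ^ m := by rw [add_comm m p, pow_add]; simp only [mul_assoc]
      _ = x := by rw [h2, h1]

end monoid

section semigroup

variable {S : Type*} [Semigroup S]

theorem coe_mul' (x : S) (z : WithOne S) : ∃ t : S, (t : WithOne S) = (x : WithOne S) * z := by
  rcases eq_or_ne z 1 with rfl | hz
  · exact ⟨x, by rw [mul_one]⟩
  · obtain ⟨z, rfl⟩ := WithOne.ne_one_iff_exists.1 hz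
    exact ⟨x * z, WithOne.coe_mul x z⟩

theorem mul_coe' (x : S) (z : WithOne S) : ∃ t : S, (t : WithOne S) = z * (x : WithOne S) := by
  rcases eq_or_ne z 1 with rfl | hz
  · exact ⟨x, by rw [one_mul]⟩
  · obtain ⟨z, rfl⟩ := WithOne.ne_one_iff_exists.1 hz
    exact ⟨z * x, WithOne.coe_mul z x⟩

/-- `x` divides `y` -/
def D (x y : S) : Prop := ∃ s t : WithOne S, s * (x : WithOne S) * t = (y : WithOne S)

theorem D.refl (x : S) : D x x := ⟨1, 1, by simp⟩

theorem D.trans {x y z : S} (h : D x y) (h' : D y z) : D x z := by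
  obtain ⟨s, t, h⟩ := h
  obtain ⟨s', t', h'⟩ := h'
  exact ⟨s' * s, t * t', by rw [← h', ← h]; simp only [mul_assoc]⟩

theorem D.mul_left {x y z : S} (h : D (x * y) z) : D x z := by
  obtain ⟨s, t, h⟩ := h
  exact ⟨s, y * t, by rw [← h, WithOne.coe_mul]; simp only [mul_assoc]⟩

theorem D.mul_right {x y z : S} (h : D (x * y) z) : D y z := by
  obtain ⟨s, t, h⟩ := h
  exact ⟨s * x, t, by rw [← h, WithOne.coe_mul]; simp only [mul_assoc]⟩

variable [Finite S]

instance finite_withOne : Finite (WithOne S) := inferInstanceAs (Finite (Option S))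

theorem exists_max [Nonempty S] : ∃ a : S, ∀ x : S, D x a → D a x := by
  obtain ⟨a, ha⟩ := Finite.exists_min (fun a : S => Nat.card {x : S // D x a})
  refine ⟨a, fun x hx => ?_⟩
  have h1 := ha x
  let f : {y : S // D y x} → {y : S // D y a} := fun y => ⟨y.1, y.2.trans hx⟩
  have hf : Function.Injective f := fun y z h => Subtype.ext
    (show y.1 = z.1 from congrArg (fun w : {y : S // D y a} => w.1) h)
  have hb : Function.Bijective f :=
    (Nat.bijective_iff_injective_and_card f).2 ⟨hf, le_antisymm (Nat.card_le_card_of_injective f hf) h1⟩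
  obtain ⟨y, hy⟩ := hb.2 ⟨a, D.refl a⟩
  have h2 : y.1 = a := congrArg Subtype.val hy
  rw [← h2]
  exact y.2

/-- if a maximal element is a product, there is a maximal idempotent -/
theorem exists_idem {a : S} (ha : ∀ x : S, D x a → D a x) (hprod : ∃ b c : S, b * c = a) :
    ∃ e : S, e * e = e ∧ D e a ∧ ∀ x : S, D x e → D e x := by
  obtain ⟨b, c, hbc⟩ := hprod
  have h1 : D c a := ⟨b, 1, by rw [← hbc, WithOne.coe_mul, mul_one]⟩
  obtain ⟨s, t, h2⟩ := ha c h1
  obtain ⟨b', hb'⟩ := mul_coe' b s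
  have h3 : (b' : WithOne S) * c * t = c := by
    calc (b' : WithOne S) * c * t = s * (b * c) * t := by rw [hb']; simp only [mul_assoc]
      _ = c := by rw [← WithOne.coe_mul, hbc, h2]
  obtain ⟨-, n, hn⟩ := stab h3
  obtain ⟨m, hm⟩ := exists_idem_pow ((b' : WithOne S) ^ (n + 1))
  have h4 : ∀ k : ℕ, ((b' : WithOne S) ^ (n + 1)) ^ k * c = c := by
    intro k
    induction k with
    | zero => simp
    | succ k ih => rw [pow_succ, mul_assoc, hn, ih]
  obtain ⟨e, he⟩ : ∃ e : S, (e : WithOne S) = ((b' : WithOne S) ^ (n + 1)) ^ (m + 1) := by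
    obtain ⟨e, he⟩ := mul_coe' b' (((b' : WithOne S) ^ (n + 1)) ^ m * (b' : WithOne S) ^ n)
    refine ⟨e, ?_⟩
    rw [he, pow_succ _ m, mul_assoc, ← pow_succ]
  have hec : e * c = c := by
    apply WithOne.coe_inj.1
    rw [WithOne.coe_mul, he, h4]
  have hea : D e a := (show D e c from ⟨1, c, by rw [one_mul, ← WithOne.coe_mul, hec]⟩).trans h1
  refine ⟨e, ?_, hea, ?_⟩
  · apply WithOne.coe_inj.1
    rw [WithOne.coe_mul, he, hm]
  · intro x hx
    exact hea.trans (ha x (hx.trans hea))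

/-- all divisors of a maximal idempotent are regular -/
theorem regular {e x : S} (he : e * e = e) (hx : D x e) (hx' : D e x) : ∃ u : S, x * u * x = x := by
  obtain ⟨s, t, h⟩ := hx
  obtain ⟨s', t', h'⟩ := hx'
  have hee : (e : WithOne S) * e = e := by rw [← WithOne.coe_mul, he]
  have h1 : (s' * e * s) * (x : WithOne S) * (t * e * t') = x := by
    calc (s' * e * s) * (x : WithOne S) * (t * e * t')
        = s' * e * (s * x * t) * e * t' := by simp only [mul_assoc]
      _ = s' * ((e : WithOne S) * e * e) * t' := by rw [h]; simp only [mul_assoc]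
      _ = x := by rw [hee, hee, h']
  obtain ⟨-, n, hn⟩ := stab h1
  set g := (s' * e * s) ^ n * s' with hg
  have h2 : (x : WithOne S) = g * (e * (s * x)) := by
    conv_lhs => rw [← hn, pow_succ]
    rw [hg]; simp only [mul_assoc]
  obtain ⟨t1, ht1⟩ := mul_coe' e t
  obtain ⟨u, hu⟩ := coe_mul' t1 s
  refine ⟨u, ?_⟩
  apply WithOne.coe_inj.1
  rw [WithOne.coe_mul, WithOne.coe_mul, hu, ht1]
  calc (x : WithOne S) * (t * e * s) * x = g * (e * (s * x)) * (t * e * s) * x := by rw [← h2]
    _ = g * (e * (s * x * t) * e * (s * x)) := by simp only [mul_assoc]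
    _ = g * ((e : WithOne S) * e * e * (s * x)) := by rw [h]
    _ = x := by rw [hee, hee, ← h2]

/-- if the class of a maximal idempotent is closed under squares, it is closed under products -/
theorem closed_of_sq {e : S} (hmax : ∀ x : S, D x e → D e x) (hD : ∀ x : S, D x e → D (x * x) e)
    {x y : S} (hx : D x e) (hy : D y e) : D (x * y) e := by
  obtain ⟨s, t, h⟩ : D x y := hx.trans (hmax y hy)
  obtain ⟨d, hd⟩ := mul_coe' x s
  have hdy : D d y := ⟨1, t, by rw [one_mul, hd, h]⟩
  have hde : D d e := hdy.trans hy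
  have hdd : D (d * d) e := hD d hde
  obtain ⟨m, hm⟩ := coe_mul' x (d : WithOne S)
  have hmd : D m (d * d) := ⟨s, 1, by
    rw [hm, mul_one, WithOne.coe_mul]
    calc s * ((x : WithOne S) * d) = (s * x) * d := by simp only [mul_assoc]
      _ = d * d := by rw [← hd]⟩
  have hme : D m e := hmd.trans hdd
  obtain ⟨p, q, hpq⟩ : D m x := hme.trans (hmax x hx)
  have h1 : (p * x * s) * (x : WithOne S) * q = x := by
    calc (p * x * s) * (x : WithOne S) * q = p * (x * (s * x)) * q := by simp only [mul_assoc]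
      _ = x := by rw [← hd, ← hm, hpq]
  obtain ⟨-, n, hn⟩ := stab h1
  -- `x = z * (x * s * x)`
  have h2 : (x : WithOne S) = ((p * x * s) ^ n * p) * (x * (s * x)) := by
    conv_lhs => rw [← hn, pow_succ]
    simp only [mul_assoc]
  have h3 : (x : WithOne S) * t = ((p * x * s) ^ n * p) * (x * y) := by
    conv_lhs => rw [h2]
    rw [← h]; simp only [mul_assoc]
  obtain ⟨v, hv⟩ := coe_mul' x t
  have h4 : D (x * y) v := ⟨(p * x * s) ^ n * p, 1, by rw [mul_one, WithOne.coe_mul, ← h3, hv]⟩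
  have h5 : D v y := ⟨s, 1, by rw [hv, mul_one, ← mul_assoc, h]⟩
  exact h4.trans (h5.trans hy)

theorem facL {e : S} (hmax : ∀ x : S, D x e → D e x) {x y : S} (hxy : D (x * y) e) :
    ∃ z : WithOne S, (x : WithOne S) = (x * y) * z := by
  obtain ⟨s, t, h⟩ : D (x * y) x := hxy.trans (hmax x hxy.mul_left)
  have h1 : s * (x : WithOne S) * (y * t) = x := by
    calc s * (x : WithOne S) * (y * t) = s * (x * y) * t := by simp only [mul_assoc]
      _ = x := by rw [← WithOne.coe_mul, h]
  obtain ⟨⟨n, hn⟩, -⟩ := stab h1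
  refine ⟨t * (y * t) ^ n, ?_⟩
  conv_lhs => rw [← hn, pow_succ']
  simp only [mul_assoc]

theorem facR {e : S} (hmax : ∀ x : S, D x e → D e x) {x y : S} (hxy : D (x * y) e) :
    ∃ z : WithOne S, (y : WithOne S) = z * (x * y) := by
  obtain ⟨s, t, h⟩ : D (x * y) y := hxy.trans (hmax y hxy.mul_right)
  have h1 : (s * x) * (y : WithOne S) * t = y := by
    calc (s * x) * (y : WithOne S) * t = s * (x * y) * t := by simp only [mul_assoc]
      _ = y := by rw [← WithOne.coe_mul, h]
  obtain ⟨-, n, hn⟩ := stab h1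
  refine ⟨(s * x) ^ n * s, ?_⟩
  conv_lhs => rw [← hn, pow_succ]
  simp only [mul_assoc]

theorem R_of_mul' {e : S} (hmax : ∀ x : S, D x e → D e x) {f x y : S}
    (h : D (x * y) e ∧ f * (x * y) = x * y) : D x e ∧ f * x = x := by
  obtain ⟨z, hz⟩ := facL hmax h.1
  refine ⟨h.1.mul_left, ?_⟩
  apply WithOne.coe_inj.1
  rw [WithOne.coe_mul]
  conv_lhs => rw [hz, ← WithOne.coe_mul, ← mul_assoc, ← WithOne.coe_mul, h.2, WithOne.coe_mul]
  exact hz.symm

theorem L_of_mul' {e : S} (hmax : ∀ x : S, D x e → D e x) {f x y : S}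
    (h : D (x * y) e ∧ (x * y) * f = x * y) : D y e ∧ y * f = y := by
  obtain ⟨z, hz⟩ := facR hmax h.1
  refine ⟨h.1.mul_right, ?_⟩
  apply WithOne.coe_inj.1
  rw [WithOne.coe_mul]
  conv_lhs => rw [hz, ← WithOne.coe_mul, mul_assoc, ← WithOne.coe_mul, h.2, WithOne.coe_mul]
  exact hz.symm

end semigroup

end Pool.Agent.T2H83.PS
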